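import Pool.Agent.Helper6_ando.Base

/-!
Balanced sets: closed under monochromatic adjacency, with a colour-reversing involution that
preserves monochromatic adjacency.
-/

set_option linter.unusedSectionVars false
set_option linter.unusedTactic false
set_option linter.unnecessarySeqFocus false

namespace Pool.Agent.Helper6_ando

open Finset

variable {V : Type} [Fintype V] [DecidableEq V] {G : SimpleGraph V} [DecidableRel G.Adj]

/-- closed under monochromatic adjacency -/
def Cl (G : SimpleGraph V) (c : V → Bool) (X : Finset V) : Prop :=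
  ∀ u ∈ X, ∀ v, G.Adj u v → c v = c u → v ∈ X

/-- balanced set -/
def Bal (G : SimpleGraph V) (c : V → Bool) (X : Finset V) : Prop :=
  Cl G c X ∧ ∃ f : V → V, ∀ u ∈ X, f u ∈ X ∧ f (f u) = u ∧ c (f u) = !(c u) ∧
    ∀ v ∈ X, c v = c u → (G.Adj u v ↔ G.Adj (f u) (f v))

lemma Bal_empty (c : V → Bool) : Bal G c ∅ := by
  refine ⟨?_, id, ?_⟩
  · intro u hu; simp at hu
  · intro u hu; simp at hu

lemma Bal_union {c : V → Bool} {X Y : Finset V} (hX : Bal G c X) (hY : Bal G c Y)
    (hd : Disjoint X Y) : Bal G c (X ∪ Y) := by
  obtain ⟨cX, f, hf⟩ := hX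
  obtain ⟨cY, g, hg⟩ := hY
  have hYX : ∀ u ∈ Y, u ∉ X := fun u hu hx => (Finset.disjoint_left.mp hd hx) hu
  refine ⟨?_, fun u => if u ∈ X then f u else g u, ?_⟩
  · intro u hu v ha hc
    rcases Finset.mem_union.mp hu with h | h
    · exact Finset.mem_union_left _ (cX u h v ha hc)
    · exact Finset.mem_union_right _ (cY u h v ha hc)
  · intro u hu
    rcases Finset.mem_union.mp hu with h | h
    · obtain ⟨h1, h2, h3, h4⟩ := hf u h
      refine ⟨?_, ?_, ?_, ?_⟩
      · simp only [h, if_true]; exact Finset.mem_union_left _ h1
      · simp only [h, if_true, h1]; exact h2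
      · simp only [h, if_true]; exact h3
      · intro v hv hc
        rcases Finset.mem_union.mp hv with h' | h'
        · simp only [h, h', if_true]; exact h4 v h' hc
        · simp only [h, hYX v h', if_true, if_false]
          constructor
          · intro ha
            exact absurd (cX u h v ha hc) (hYX v h')
          · intro ha
            obtain ⟨g1, g2, g3, g4⟩ := hg v h'
            exact absurd (cX (f u) h1 (g v) ha (by rw [g3, h3, hc])) (hYX _ g1)
    · have hn := hYX u h
      obtain ⟨h1, h2, h3, h4⟩ := hg u h
      have hn1 := hYX _ h1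
      refine ⟨?_, ?_, ?_, ?_⟩
      · simp only [hn, if_false]; exact Finset.mem_union_right _ h1
      · simp only [hn, if_false, hn1]; exact h2
      · simp only [hn, if_false]; exact h3
      · intro v hv hc
        rcases Finset.mem_union.mp hv with h' | h'
        · simp only [hn, h', if_true, if_false]
          constructor
          · intro ha
            exact absurd (cX v h' u ha.symm hc.symm) hn
          · intro ha
            obtain ⟨g1, g2, g3, g4⟩ := hf v h'
            exact absurd (cX (f v) g1 (g u) ha.symm (by rw [g3, h3, hc])) hn1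
        · simp only [hn, hYX v h', if_false]; exact h4 v h' hc

lemma Bal_md {c : V → Bool} {X : Finset V} (hcl : Cl G c X) {f : V → V}
    (hf : ∀ u ∈ X, f u ∈ X ∧ f (f u) = u ∧ c (f u) = !(c u) ∧
    ∀ v ∈ X, c v = c u → (G.Adj u v ↔ G.Adj (f u) (f v))) {u : V} (hu : u ∈ X) :
    md G c (f u) = md G c u := by
  obtain ⟨h1, h2, h3, h4⟩ := hf u hu
  unfold md
  symm
  apply Finset.card_bij (fun v _ => f v)
  · intro v hv
    simp only [Finset.mem_filter, SimpleGraph.mem_neighborFinset] at hv ⊢
    have hvX := hcl u hu v hv.1 hv.2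
    refine ⟨(h4 v hvX hv.2).mp hv.1, ?_⟩
    rw [(hf v hvX).2.2.1, h3, hv.2]
  · intro v hv w hw he
    simp only [Finset.mem_filter, SimpleGraph.mem_neighborFinset] at hv hw
    have hvX := hcl u hu v hv.1 hv.2
    have hwX := hcl u hu w hw.1 hw.2
    have := congrArg f he
    rwa [(hf v hvX).2.1, (hf w hwX).2.1] at this
  · intro w hw
    simp only [Finset.mem_filter, SimpleGraph.mem_neighborFinset] at hw
    have hwX := hcl _ h1 w hw.1 hw.2
    have hfw := hf w hwX
    refine ⟨f w, ?_, hfw.2.1⟩
    simp only [Finset.mem_filter, SimpleGraph.mem_neighborFinset]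
    have := ((hf _ h1).2.2.2 w hwX hw.2).mp hw.1
    rw [h2] at this
    refine ⟨this, ?_⟩
    rw [hfw.2.2.1, hw.2, h3]
    simp

lemma Bal_sum {c : V → Bool} {X : Finset V} (h : Bal G c X) (F : ℕ → ℤ) :
    ∑ v ∈ X, (if c v = true then -(F (md G c v)) else F (md G c v)) = 0 := by
  obtain ⟨hcl, f, hf⟩ := h
  have h2 : ∑ v ∈ X, (if c v = true then -(F (md G c v)) else F (md G c v)) =
      ∑ v ∈ X, -(if c v = true then -(F (md G c v)) else F (md G c v)) := by
    apply Finset.sum_nbij' f f
    · intro a ha; exact (hf a ha).1
    · intro a ha; exact (hf a ha).1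
    · intro a ha; exact (hf a ha).2.1
    · intro a ha; exact (hf a ha).2.1
    · intro a ha
      rw [Bal_md hcl hf ha, (hf a ha).2.2.1]
      cases c a <;> simp
  rw [Finset.sum_neg_distrib] at h2
  omega

lemma Bal_congr {c c' : V → Bool} {X : Finset V} (h : Bal G c X)
    (h0 : ∀ u ∈ X, c' u = c u) (h1 : ∀ u ∈ X, ∀ v, G.Adj u v → c' v = c v) : Bal G c' X := by
  obtain ⟨hcl, f, hf⟩ := h
  refine ⟨?_, f, ?_⟩
  · intro u hu v ha hc
    rw [h0 u hu, h1 u hu v ha] at hc
    exact hcl u hu v ha hc
  · intro u hu
    obtain ⟨g1, g2, g3, g4⟩ := hf u hu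
    refine ⟨g1, g2, ?_, ?_⟩
    · rw [h0 _ g1, h0 _ hu, g3]
    · intro v hv hc
      rw [h0 u hu, h0 v hv] at hc
      exact g4 v hv hc

lemma Bal_cpl {c : V → Bool} {X : Finset V} (h : Bal G c X) : Bal G (cpl c) X := by
  obtain ⟨hcl, f, hf⟩ := h
  refine ⟨?_, f, ?_⟩
  · intro u hu v ha hc
    apply hcl u hu v ha
    simpa [cpl] using hc
  · intro u hu
    obtain ⟨g1, g2, g3, g4⟩ := hf u hu
    refine ⟨g1, g2, ?_, ?_⟩
    · simp [cpl, g3]
    · intro v hv hc
      apply g4 v hv
      simpa [cpl] using hc

/-- a pair of isomorphic closed pieces of opposite colours -/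
lemma Bal_pair {c : V → Bool} {k : ℕ} (P Q : Fin k → V)
    (hP : Function.Injective P) (hQ : Function.Injective Q)
    (hcP : ∀ i, c (P i) = true) (hcQ : ∀ i, c (Q i) = false)
    (hadj : ∀ i j, G.Adj (P i) (P j) ↔ G.Adj (Q i) (Q j))
    (hclP : ∀ i v, G.Adj (P i) v → c v = true → ∃ j, v = P j)
    (hclQ : ∀ i v, G.Adj (Q i) v → c v = false → ∃ j, v = Q j) :
    Bal G c (Finset.univ.image P ∪ Finset.univ.image Q) := by
  classical
  have hPQ : ∀ i j, P i ≠ Q j := by
    intro i j h
    have h1 := hcP i
    rw [h, hcQ j] at h1
    exact absurd h1 (by simp)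
  refine ⟨?_, fun v => if h : ∃ i, P i = v then Q h.choose else
    if h : ∃ i, Q i = v then P h.choose else v, ?_⟩
  · intro u hu v ha hc
    simp only [Finset.mem_union, Finset.mem_image, Finset.mem_univ, true_and] at hu ⊢
    rcases hu with ⟨i, rfl⟩ | ⟨i, rfl⟩
    · left
      rw [hcP] at hc
      obtain ⟨j, rfl⟩ := hclP i v ha hc
      exact ⟨j, rfl⟩
    · right
      rw [hcQ] at hc
      obtain ⟨j, rfl⟩ := hclQ i v ha hc
      exact ⟨j, rfl⟩
  · have e1 : ∀ i, (fun v => if h : ∃ i, P i = v then Q h.choose else
      if h : ∃ i, Q i = v then P h.choose else v) (P i) = Q i := by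
      intro i
      have h : ∃ j, P j = P i := ⟨i, rfl⟩
      simp only [h, dif_pos]
      rw [hP h.choose_spec]
    have e2 : ∀ i, (fun v => if h : ∃ i, P i = v then Q h.choose else
      if h : ∃ i, Q i = v then P h.choose else v) (Q i) = P i := by
      intro i
      have h : ∃ j, Q j = Q i := ⟨i, rfl⟩
      have h' : ¬ ∃ j, P j = Q i := by rintro ⟨j, hj⟩; exact hPQ _ _ hj
      simp only [h, h', dif_pos, dif_neg, not_false_eq_true]
      rw [hQ h.choose_spec]
    generalize (fun v => if h : ∃ i, P i = v then Q h.choose else
      if h : ∃ i, Q i = v then P h.choose else v) = f at e1 e2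
    intro u hu
    simp only [Finset.mem_union, Finset.mem_image, Finset.mem_univ, true_and] at hu
    rcases hu with ⟨i, rfl⟩ | ⟨i, rfl⟩
    · refine ⟨?_, ?_, ?_, ?_⟩
      · rw [e1]; simp
      · rw [e1, e2]
      · rw [e1, hcP, hcQ]; rfl
      · intro v hv hc
        simp only [Finset.mem_union, Finset.mem_image, Finset.mem_univ, true_and] at hv
        rcases hv with ⟨j, rfl⟩ | ⟨j, rfl⟩
        · rw [e1, e1]; exact hadj i j
        · rw [hcP, hcQ] at hc; exact absurd hc (by simp)
    · refine ⟨?_, ?_, ?_, ?_⟩
      · rw [e2]; simp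
      · rw [e2, e1]
      · rw [e2, hcP, hcQ]; rfl
      · intro v hv hc
        simp only [Finset.mem_union, Finset.mem_image, Finset.mem_univ, true_and] at hv
        rcases hv with ⟨j, rfl⟩ | ⟨j, rfl⟩
        · rw [hcP, hcQ] at hc; exact absurd hc (by simp)
        · rw [e2, e2]; exact (hadj i j).symm

/-- the unique same-colour neighbour of a vertex of same-colour degree one -/
lemma md_one {c : V → Bool} {u : V} (h : md G c u = 1) :
    ∃ w, G.Adj u w ∧ c w = c u ∧ ∀ x, G.Adj u x → c x = c u → x = w := by
  unfold md at h
  obtain ⟨w, hw⟩ := Finset.card_eq_one.mp h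
  have : w ∈ (G.neighborFinset u).filter (fun x => c x = c u) := by rw [hw]; simp
  simp only [Finset.mem_filter, SimpleGraph.mem_neighborFinset] at this
  refine ⟨w, this.1, this.2, ?_⟩
  intro x hx hc
  have hx2 : x ∈ (G.neighborFinset u).filter (fun x => c x = c u) := by
    simp only [Finset.mem_filter, SimpleGraph.mem_neighborFinset]; exact ⟨hx, hc⟩
  rw [hw] at hx2
  simpa using hx2

lemma md_zero {c : V → Bool} {u : V} (h : md G c u = 0) :
    ∀ x, G.Adj u x → c x = c u → False := by
  unfold md at h
  rw [Finset.card_eq_zero] at h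
  intro x hx hc
  have hx2 : x ∈ (G.neighborFinset u).filter (fun x => c x = c u) := by
    simp only [Finset.mem_filter, SimpleGraph.mem_neighborFinset]; exact ⟨hx, hc⟩
  rw [h] at hx2
  simp at hx2

lemma one_le_md {c : V → Bool} {u w : V} (ha : G.Adj u w) (hc : c w = c u) : 1 ≤ md G c u := by
  by_contra h
  exact md_zero (by omega : md G c u = 0) w ha hc

/-- all same-colour neighbours are listed once their number is reached -/
lemma md_list {c : V → Bool} {u : V} (L : Finset V) (h : md G c u ≤ L.card)
    (hL : ∀ w ∈ L, G.Adj u w ∧ c w = c u) : ∀ x, G.Adj u x → c x = c u → x ∈ L := by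
  intro x hx hc
  have hsub : L ⊆ (G.neighborFinset u).filter (fun x => c x = c u) := by
    intro w hw
    simp only [Finset.mem_filter, SimpleGraph.mem_neighborFinset]
    exact hL w hw
  have heq := Finset.eq_of_subset_of_card_le hsub h
  rw [heq]
  simp only [Finset.mem_filter, SimpleGraph.mem_neighborFinset]
  exact ⟨hx, hc⟩

/-- a pair of isolated edges -/
lemma Bal_K2 {c : V → Bool} {u u' w w' : V} (hau : G.Adj u u') (haw : G.Adj w w')
    (hcu : c u = true) (hcu' : c u' = true) (hcw : c w = false) (hcw' : c w' = false)
    (hu : md G c u ≤ 1) (hu' : md G c u' ≤ 1) (hw : md G c w ≤ 1) (hw' : md G c w' ≤ 1) :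
    Bal G c {u, u', w, w'} := by
  have l1 := md_list (c := c) (u := u) {u'} (by simpa using hu) (by simp [hau, hcu, hcu'])
  have l2 := md_list (c := c) (u := u') {u} (by simpa using hu') (by simp [hau.symm, hcu, hcu'])
  have l3 := md_list (c := c) (u := w) {w'} (by simpa using hw) (by simp [haw, hcw, hcw'])
  have l4 := md_list (c := c) (u := w') {w} (by simpa using hw') (by simp [haw.symm, hcw, hcw'])
  have huu := hau.ne
  have hww := haw.ne
  have hB := Bal_pair (G := G) (c := c) (k := 2) ![u, u'] ![w, w']
    (by
      intro i j h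
      fin_cases i <;> fin_cases j <;> simp at h ⊢
      · exact huu h
      · exact huu h.symm)
    (by
      intro i j h
      fin_cases i <;> fin_cases j <;> simp at h ⊢
      · exact hww h
      · exact hww h.symm)
    (by intro i; fin_cases i <;> simp [hcu, hcu'])
    (by intro i; fin_cases i <;> simp [hcw, hcw'])
    (by
      intro i j
      fin_cases i <;> fin_cases j <;> simp [hau, hau.symm, haw, haw.symm])
    (by
      intro i v ha hc
      fin_cases i
      · exact ⟨1, by simpa using l1 v (by simpa using ha) (by rw [hc, hcu])⟩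
      · exact ⟨0, by simpa using l2 v (by simpa using ha) (by rw [hc, hcu'])⟩)
    (by
      intro i v ha hc
      fin_cases i
      · exact ⟨1, by simpa using l3 v (by simpa using ha) (by rw [hc, hcw])⟩
      · exact ⟨0, by simpa using l4 v (by simpa using ha) (by rw [hc, hcw'])⟩)
  have he : (Finset.univ.image ![u, u'] ∪ Finset.univ.image ![w, w']) = ({u, u', w, w'} : Finset V) := by
    ext x
    simp [Fin.exists_fin_two, or_assoc, eq_comm]
  rw [he] at hB
  exact hB

/-- a pair of isolated vertices -/
lemma Bal_K1 {c : V → Bool} {u w : V}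
    (hcu : c u = true) (hcw : c w = false) (hu : md G c u = 0) (hw : md G c w = 0) :
    Bal G c {u, w} := by
  have hB := Bal_pair (G := G) (c := c) (k := 1) ![u] ![w]
    (by intro i j h; exact Subsingleton.elim _ _)
    (by intro i j h; exact Subsingleton.elim _ _)
    (by intro i; fin_cases i; simpa using hcu)
    (by intro i; fin_cases i; simpa using hcw)
    (by
      intro i j
      fin_cases i; fin_cases j; simp)
    (by
      intro i v ha hc
      fin_cases i
      exact absurd hcu (fun _ => md_zero hu v (by simpa using ha) (by rw [hc, hcu])))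
    (by
      intro i v ha hc
      fin_cases i
      exact absurd hcw (fun _ => md_zero hw v (by simpa using ha) (by rw [hc, hcw])))
  have he : (Finset.univ.image ![u] ∪ Finset.univ.image ![w]) = ({u, w} : Finset V) := by
    ext x
    simp [eq_comm]
  rw [he] at hB
  exact hB

lemma sum_compl_zero {c : V → Bool} (hG : G.IsRegularOfDegree 3) (hi : imb c = 0) {X : Finset V}
    (hX : Bal G c X) :
    ∑ v ∈ Xᶜ, (if c v = true then (-1 : ℤ) else 1) = 0 ∧
    ∑ v ∈ Xᶜ, (if c v = true then -(md G c v : ℤ) else (md G c v : ℤ)) = 0 := by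
  have h1 := Bal_sum hX (fun _ => 1)
  have h2 := Bal_sum hX (fun n => (n : ℤ))
  have h3 := Finset.sum_add_sum_compl X (fun v => if c v = true then (-1 : ℤ) else 1)
  have h4 := Finset.sum_add_sum_compl X (fun v => if c v = true then -(md G c v : ℤ) else (md G c v : ℤ))
  rw [cross_count hG] at h4
  unfold imb at hi h4
  rw [hi] at h3 h4
  constructor
  · linarith
  · linarith

/-- completing a balanced set when all other same-colour degrees are at most one -/
lemma Bal_complete (hG : G.IsRegularOfDegree 3) {c : V → Bool} (hi : imb c = 0) :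
    ∀ (n : ℕ) (X : Finset V), Xᶜ.card = n → Bal G c X → (∀ u, u ∉ X → md G c u ≤ 1) →
      Bal G c Finset.univ := by
  intro n
  induction n using Nat.strong_induction_on with
  | _ n ih =>
    intro X hn hX hm
    by_cases hfull : Xᶜ = ∅
    · have : X = Finset.univ := by
        rw [Finset.compl_eq_empty_iff] at hfull; exact hfull
      rw [← this]; exact hX
    obtain ⟨s1, s2⟩ := sum_compl_zero hG hi hX
    have hclX := hX.1
    -- common step
    have step : ∀ Y : Finset V, Bal G c Y → Disjoint X Y → Y.Nonempty → Bal G c Finset.univ := by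
      intro Y hY hd hne
      have hlt : (X ∪ Y)ᶜ.card < n := by
        rw [← hn]
        apply Finset.card_lt_card
        constructor
        · apply Finset.compl_subset_compl.mpr
          exact Finset.subset_union_left
        · intro hsub
          obtain ⟨y, hy⟩ := hne
          have hyX : y ∉ X := fun h => Finset.disjoint_left.mp hd h hy
          have := hsub (Finset.mem_compl.mpr hyX)
          rw [Finset.mem_compl, Finset.mem_union, not_or] at this
          exact this.2 hy
      exact ih _ hlt (X ∪ Y) rfl (Bal_union hX hY hd) (fun u hu => hm u (fun h => hu (Finset.mem_union_left _ h)))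
    by_cases hone : ∃ u, u ∉ X ∧ md G c u = 1
    · -- there are vertices of both colours
      have hboth : (∃ u, u ∉ X ∧ md G c u = 1 ∧ c u = true) ∧ (∃ w, w ∉ X ∧ md G c w = 1 ∧ c w = false) := by
        obtain ⟨u, hu, hmu⟩ := hone
        by_contra hcon
        rw [not_and_or] at hcon
        rcases hcon with hcon | hcon
        · -- no true ones
          push Not at hcon
          have hnn : ∀ v ∈ Xᶜ, 0 ≤ (if c v = true then -(md G c v : ℤ) else (md G c v : ℤ)) := by
            intro v hv
            rw [Finset.mem_compl] at hv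
            have h1 := hm v hv
            have h2 := hcon v hv
            split_ifs with hc
            · have : md G c v ≠ 1 := fun h => h2 h hc
              have : md G c v = 0 := by omega
              simp [this]
            · positivity
          have := (Finset.sum_eq_zero_iff_of_nonneg hnn).mp s2 u (Finset.mem_compl.mpr hu)
          have hcu := hcon u hu hmu
          rw [if_neg hcu, hmu] at this
          simp at this
        · push Not at hcon
          have hnn : ∀ v ∈ Xᶜ, (if c v = true then -(md G c v : ℤ) else (md G c v : ℤ)) ≤ 0 := by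
            intro v hv
            rw [Finset.mem_compl] at hv
            have h1 := hm v hv
            have h2 := hcon v hv
            split_ifs with hc
            · simp
            · have : md G c v ≠ 1 := fun h => h2 h (by simpa using hc)
              have : md G c v = 0 := by omega
              simp [this]
          have := (Finset.sum_eq_zero_iff_of_nonpos hnn).mp s2 u (Finset.mem_compl.mpr hu)
          have hcu : c u = true := by simpa using hcon u hu hmu
          rw [if_pos hcu, hmu] at this
          simp at this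
      obtain ⟨⟨u, hu, hmu, hcu⟩, ⟨w, hw, hmw, hcw⟩⟩ := hboth
      obtain ⟨u', hau, hcu', huu⟩ := md_one hmu
      obtain ⟨w', haw, hcw', hww⟩ := md_one hmw
      have hu' : u' ∉ X := fun h => hu (hclX u' h u hau.symm hcu'.symm)
      have hw' : w' ∉ X := fun h => hw (hclX w' h w haw.symm hcw'.symm)
      have hmu' := hm u' hu'
      have hmw' := hm w' hw'
      have hB := Bal_K2 (G := G) (c := c) hau haw hcu (by rw [hcu', hcu]) hcw (by rw [hcw', hcw]) hmu.le hmu' hmw.le hmw'
      refine step _ hB ?_ ?_
      · rw [Finset.disjoint_left]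
        intro a ha hb
        simp only [Finset.mem_insert, Finset.mem_singleton] at hb
        rcases hb with rfl | rfl | rfl | rfl
        · exact hu ha
        · exact hu' ha
        · exact hw ha
        · exact hw' ha
      · exact ⟨u, by simp⟩
    · push Not at hone
      have hz : ∀ u, u ∉ X → md G c u = 0 := fun u hu => by
        have := hm u hu
        have := hone u hu
        omega
      have hboth : (∃ u, u ∉ X ∧ c u = true) ∧ (∃ w, w ∉ X ∧ c w = false) := by
        obtain ⟨u, hu⟩ := Finset.nonempty_iff_ne_empty.mpr hfull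
        by_contra hcon
        rw [not_and_or] at hcon
        rcases hcon with hcon | hcon
        · push Not at hcon
          have hnn : ∀ v ∈ Xᶜ, (0:ℤ) ≤ (if c v = true then (-1 : ℤ) else 1) := by
            intro v hv
            rw [Finset.mem_compl] at hv
            rw [if_neg (hcon v hv)]; norm_num
          have := (Finset.sum_eq_zero_iff_of_nonneg hnn).mp s1 u hu
          rw [Finset.mem_compl] at hu
          rw [if_neg (hcon u hu)] at this
          norm_num at this
        · push Not at hcon
          have hcon' : ∀ w, w ∉ X → c w = true := fun w hw => by simpa using hcon w hw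
          have hnn : ∀ v ∈ Xᶜ, (if c v = true then (-1 : ℤ) else 1) ≤ 0 := by
            intro v hv
            rw [Finset.mem_compl] at hv
            rw [if_pos (hcon' v hv)]; norm_num
          have := (Finset.sum_eq_zero_iff_of_nonpos hnn).mp s1 u hu
          rw [Finset.mem_compl] at hu
          rw [if_pos (hcon' u hu)] at this
          norm_num at this
      obtain ⟨⟨u, hu, hcu⟩, ⟨w, hw, hcw⟩⟩ := hboth
      have hB := Bal_K1 (G := G) (c := c) hcu hcw (hz u hu) (hz w hw)
      refine step _ hB ?_ ?_
      · rw [Finset.disjoint_left]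
        intro a ha hb
        simp only [Finset.mem_insert, Finset.mem_singleton] at hb
        rcases hb with rfl | rfl
        · exact hu ha
        · exact hw ha
      · exact ⟨u, by simp⟩

lemma Bal_univ_of (hG : G.IsRegularOfDegree 3) {c : V → Bool} (hi : imb c = 0) {X : Finset V}
    (hX : Bal G c X) (hm : ∀ u, u ∉ X → md G c u ≤ 1) : Bal G c Finset.univ :=
  Bal_complete hG hi _ X rfl hX hm

/-- the bisection with isomorphic halves -/
lemma iso_of_Bal {c : V → Bool} (h : Bal G c Finset.univ) :
    ∃ B : Finset V, 2 * B.card = Fintype.card V ∧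
      Nonempty (SimpleGraph.Iso (G.induce (↑B : Set V)) (G.induce ((↑B : Set V)ᶜ))) := by
  obtain ⟨hcl, f, hf⟩ := h
  have hf' := fun u => hf u (Finset.mem_univ u)
  have hinv : Function.Involutive f := fun u => (hf' u).2.1
  set B : Finset V := Finset.univ.filter (fun v => c v = true) with hB
  refine ⟨B, ?_, ?_⟩
  · have hc : B.card = Bᶜ.card := by
      apply Finset.card_bij (fun v _ => f v)
      · intro a ha
        simp only [hB, Finset.mem_compl, Finset.mem_filter, Finset.mem_univ, true_and] at ha ⊢
        rw [(hf' a).2.2.1, ha]; simp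
      · intro a _ b _ he
        exact hinv.injective he
      · intro b hb
        simp only [hB, Finset.mem_compl, Finset.mem_filter, Finset.mem_univ, true_and] at hb
        refine ⟨f b, ?_, hinv b⟩
        simp only [hB, Finset.mem_filter, Finset.mem_univ, true_and]
        rw [(hf' b).2.2.1]
        simpa using hb
    have := Finset.card_add_card_compl B
    omega
  · refine ⟨{ toFun := fun v => ⟨f v.1, ?_⟩, invFun := fun v => ⟨f v.1, ?_⟩, left_inv := ?_, right_inv := ?_, map_rel_iff' := ?_ }⟩
    · have := v.2
      simp only [hB, Finset.coe_filter, Finset.mem_univ, true_and, Set.mem_ofPred_eq, Set.mem_compl_iff] at this ⊢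
      rw [(hf' v.1).2.2.1, this]; simp
    · have := v.2
      simp only [hB, Finset.coe_filter, Finset.mem_univ, true_and, Set.mem_ofPred_eq, Set.mem_compl_iff] at this ⊢
      rw [(hf' v.1).2.2.1]; simpa using this
    · intro v; apply Subtype.ext; exact hinv v.1
    · intro v; apply Subtype.ext; exact hinv v.1
    · intro a b
      have ha := a.2
      have hb := b.2
      simp only [hB, Finset.coe_filter, Finset.mem_univ, true_and, Set.mem_ofPred_eq] at ha hb
      exact ((hf' a.1).2.2.2 b.1 (Finset.mem_univ _) (by rw [ha, hb])).symm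

end Pool.Agent.Helper6_ando
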