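import Mathlib

/-!
Two-colourings of cubic graphs: same-colour degrees, imbalance, the potential `Psi`,
single flips, and balanced sets.
-/

set_option linter.unusedSectionVars false
set_option linter.unusedTactic false
set_option linter.unnecessarySeqFocus false

namespace Pool.Agent.Helper6_ando

open Finset

variable {V : Type} [Fintype V] [DecidableEq V] (G : SimpleGraph V) [DecidableRel G.Adj]

/-- number of neighbours of `v` that have the colour of `v` -/
def md (c : V → Bool) (v : V) : ℕ := ((G.neighborFinset v).filter (fun u => c u = c v)).card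

/-- (number of `false` vertices) minus (number of `true` vertices) -/
def imb (c : V → Bool) : ℤ := ∑ v, (if c v = true then (-1 : ℤ) else 1)

/-- sum of all same-colour degrees -/
def tot (c : V → Bool) : ℤ := ∑ v, (md G c v : ℤ)

/-- the potential -/
def Psi (c : V → Bool) : ℤ := tot G c + |imb c|

/-- colourings of minimum potential -/
def Opt (c : V → Bool) : Prop := ∀ c' : V → Bool, Psi G c ≤ Psi G c'

/-- change the colour of one vertex -/
def flp (c : V → Bool) (v : V) : V → Bool := Function.update c v (!c v)

/-- exchange the two colours -/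
def cpl (c : V → Bool) : V → Bool := fun v => !c v

variable {G}

@[simp] lemma flp_same (c : V → Bool) (v : V) : flp c v v = !c v := by simp [flp]

lemma flp_ne (c : V → Bool) {v u : V} (h : u ≠ v) : flp c v u = c u := by simp [flp, h]

lemma flp_flp (c : V → Bool) (v : V) : flp (flp c v) v = c := by
  funext u
  by_cases h : u = v
  · subst h; simp
  · simp [flp_ne _ h]

/-- the two neighbour classes -/
lemma md_add (hG : G.IsRegularOfDegree 3) (c : V → Bool) (v : V) :
    md G c v + ((G.neighborFinset v).filter (fun u => ¬ c u = c v)).card = 3 := by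
  unfold md
  rw [Finset.card_filter_add_card_filter_not]
  exact hG v

lemma md_le (hG : G.IsRegularOfDegree 3) (c : V → Bool) (v : V) : md G c v ≤ 3 := by
  have := md_add hG c v
  omega

lemma md_flp_self (hG : G.IsRegularOfDegree 3) (c : V → Bool) (v : V) :
    md G (flp c v) v + md G c v = 3 := by
  have h := md_add hG c v
  have : md G (flp c v) v = ((G.neighborFinset v).filter (fun u => ¬ c u = c v)).card := by
    unfold md
    congr 1
    apply Finset.filter_congr
    intro u hu
    have huv : u ≠ v := by
      rintro rfl
      simp at hu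
    rw [flp_ne c huv, flp_same]
    cases c u <;> cases c v <;> simp
  omega

lemma md_flp_same {c : V → Bool} {v u : V} (ha : G.Adj v u) (hc : c u = c v) :
    md G (flp c v) u + 1 = md G c u := by
  unfold md
  have huv : u ≠ v := ha.ne'
  have h1 : (G.neighborFinset u).filter (fun w => c w = c u) =
      insert v ((G.neighborFinset u).filter (fun w => (flp c v) w = (flp c v) u)) := by
    ext w
    by_cases hw : w = v
    · subst hw
      simp [ha.symm, hc]
    · simp [flp_ne c hw, flp_ne c huv, hw]
  rw [h1, Finset.card_insert_of_notMem]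
  simp [flp_ne c huv, hc]

lemma md_flp_diff {c : V → Bool} {v u : V} (ha : G.Adj v u) (hc : c u ≠ c v) :
    md G (flp c v) u = md G c u + 1 := by
  have huv : u ≠ v := ha.ne'
  have h := md_flp_same (G := G) (c := flp c v) ha (by
    rw [flp_ne c huv, flp_same]
    revert hc
    cases c u <;> cases c v <;> simp)
  rw [flp_flp] at h
  omega

lemma md_flp_far {c : V → Bool} {v u : V} (huv : u ≠ v) (ha : ¬ G.Adj v u) :
    md G (flp c v) u = md G c u := by
  unfold md
  congr 1
  apply Finset.filter_congr
  intro w hw
  have hwv : w ≠ v := by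
    rintro rfl
    simp at hw
    exact ha hw.symm
  rw [flp_ne c huv, flp_ne c hwv]

/-- locality: `md` depends only on the colours of the closed neighbourhood -/
lemma md_congr {c c' : V → Bool} {v : V} (h0 : c' v = c v) (h : ∀ u, G.Adj v u → c' u = c u) :
    md G c' v = md G c v := by
  unfold md
  congr 1
  apply Finset.filter_congr
  intro w hw
  simp at hw
  rw [h0, h w hw]

lemma tot_flp (hG : G.IsRegularOfDegree 3) (c : V → Bool) (v : V) :
    tot G (flp c v) = tot G c + 2 * (3 - 2 * (md G c v : ℤ)) := by
  have key : ∀ u, (md G (flp c v) u : ℤ) = (md G c u : ℤ) +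
      ((if u = v then (3 - 2 * (md G c v : ℤ)) else 0) +
       ((if u ∈ (G.neighborFinset v).filter (fun u => ¬ c u = c v) then 1 else 0) -
        (if u ∈ (G.neighborFinset v).filter (fun u => c u = c v) then 1 else 0))) := by
    intro u
    by_cases huv : u = v
    · subst huv
      have := md_flp_self hG c u
      simp
      omega
    · by_cases ha : G.Adj v u
      · by_cases hc : c u = c v
        · have := md_flp_same ha hc
          simp [huv, ha, hc]
          omega
        · have := md_flp_diff ha hc
          simp [huv, ha, hc]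
          omega
      · have := md_flp_far (c := c) huv ha
        simp [huv, ha]
        omega
  unfold tot
  rw [Finset.sum_congr rfl (fun u _ => key u)]
  rw [Finset.sum_add_distrib, Finset.sum_add_distrib, Finset.sum_sub_distrib]
  rw [Finset.sum_ite_eq' Finset.univ v]
  have h1 : (∑ u : V, if u ∈ (G.neighborFinset v).filter (fun u => ¬ c u = c v) then (1:ℤ) else 0) =
      ((G.neighborFinset v).filter (fun u => ¬ c u = c v)).card := by
    rw [Finset.sum_ite_mem]; simp
  have h2 : (∑ u : V, if u ∈ (G.neighborFinset v).filter (fun u => c u = c v) then (1:ℤ) else 0) =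
      ((G.neighborFinset v).filter (fun u => c u = c v)).card := by
    rw [Finset.sum_ite_mem]; simp
  rw [h1, h2]
  have h3 := md_add hG c v
  have h4 : ((G.neighborFinset v).filter (fun u => c u = c v)).card = md G c v := rfl
  rw [h4]
  simp only [Finset.mem_univ, if_true]
  push_cast [← h3]
  have : (((G.neighborFinset v).filter (fun u => ¬ c u = c v)).card : ℤ) = 3 - md G c v := by
    omega
  rw [this]
  ring

lemma imb_flp (c : V → Bool) (v : V) :
    imb (flp c v) = imb c + (if c v = true then 2 else -2) := by
  unfold imb
  rw [← Finset.add_sum_erase _ _ (Finset.mem_univ v), ← Finset.add_sum_erase (a := v) (s := Finset.univ) (fun v => if c v = true then (-1 : ℤ) else 1) (Finset.mem_univ v)]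
  have : ∑ x ∈ Finset.univ.erase v, (if flp c v x = true then (-1 : ℤ) else 1) =
      ∑ x ∈ Finset.univ.erase v, (if c x = true then (-1 : ℤ) else 1) := by
    apply Finset.sum_congr rfl
    intro x hx
    rw [flp_ne c (Finset.ne_of_mem_erase hx)]
  rw [this]
  cases h : c v <;> simp [h] <;> ring

lemma imb_flp_true {c : V → Bool} {v : V} (h : c v = true) : imb (flp c v) = imb c + 2 := by
  rw [imb_flp, h]; simp

lemma imb_flp_false {c : V → Bool} {v : V} (h : c v = false) : imb (flp c v) = imb c - 2 := by
  rw [imb_flp, h]; simp; ring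

lemma md_cpl (c : V → Bool) (v : V) : md G (cpl c) v = md G c v := by
  unfold md cpl
  congr 1
  apply Finset.filter_congr
  intro u _
  cases c u <;> cases c v <;> simp

lemma imb_cpl (c : V → Bool) : imb (cpl c) = - imb c := by
  unfold imb cpl
  rw [← Finset.sum_neg_distrib]
  apply Finset.sum_congr rfl
  intro u _
  cases c u <;> simp

lemma tot_cpl (c : V → Bool) : tot G (cpl c) = tot G c := by
  unfold tot
  simp [md_cpl]

lemma Psi_cpl (c : V → Bool) : Psi G (cpl c) = Psi G c := by
  unfold Psi
  rw [tot_cpl, imb_cpl, abs_neg]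

lemma Opt_cpl {c : V → Bool} (h : Opt G c) : Opt G (cpl c) := by
  intro c'
  rw [Psi_cpl]
  exact h c'

lemma Opt_of_Psi_eq {c c' : V → Bool} (h : Opt G c) (he : Psi G c' = Psi G c) : Opt G c' := by
  intro d
  rw [he]
  exact h d

/-- the potential after a flip -/
lemma Psi_flp (hG : G.IsRegularOfDegree 3) (c : V → Bool) (v : V) :
    Psi G (flp c v) = tot G c + 2 * (3 - 2 * (md G c v : ℤ)) +
      |imb c + (if c v = true then 2 else -2)| := by
  unfold Psi
  rw [tot_flp hG, imb_flp]

lemma exists_opt : ∃ c : V → Bool, Opt G c := by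
  obtain ⟨c, hc⟩ := Finite.exists_min (fun c : V → Bool => Psi G c)
  exact ⟨c, hc⟩

/-- imbalance has the parity of the order -/
lemma imb_parity (c : V → Bool) : (2 : ℤ) ∣ (imb c + (Fintype.card V : ℤ)) := by
  have : imb c + (Fintype.card V : ℤ) = ∑ v : V, ((if c v = true then (-1 : ℤ) else 1) + 1) := by
    rw [Finset.sum_add_distrib]; unfold imb; simp
  rw [this]
  apply Finset.dvd_sum
  intro v _
  cases c v <;> simp

lemma card_even (hG : G.IsRegularOfDegree 3) : (2 : ℤ) ∣ (Fintype.card V : ℤ) := by
  have h := G.sum_degrees_eq_twice_card_edges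
  have h2 : ∑ v : V, G.degree v = Fintype.card V * 3 := by
    rw [Finset.sum_congr rfl (fun v _ => hG v)]
    simp
  rw [h2] at h
  omega

lemma imb_even (hG : G.IsRegularOfDegree 3) (c : V → Bool) : (2 : ℤ) ∣ imb c := by
  have h1 := imb_parity c
  have h2 := card_even hG
  omega

/-- O1 -/
lemma opt_false_le_one (hG : G.IsRegularOfDegree 3) {c : V → Bool} (h : Opt G c) (hd : 0 < imb c)
    {v : V} (hv : c v = false) : md G c v ≤ 1 := by
  by_contra hcon
  have h1 := h (flp c v)
  rw [Psi_flp hG, hv] at h1
  have he := imb_even hG c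
  have hd2 : 2 ≤ imb c := by omega
  simp only [Bool.false_eq_true, if_false] at h1
  unfold Psi at h1
  rw [abs_of_pos hd, abs_of_nonneg (by omega)] at h1
  omega

/-- O2 -/
lemma opt_true_le_two (hG : G.IsRegularOfDegree 3) {c : V → Bool} (h : Opt G c) (hd : 0 ≤ imb c)
    {v : V} (hv : c v = true) : md G c v ≤ 2 := by
  by_contra hcon
  have h1 := h (flp c v)
  rw [Psi_flp hG, hv] at h1
  simp only [if_true] at h1
  unfold Psi at h1
  rw [abs_of_nonneg hd, abs_of_nonneg (by omega)] at h1
  omega

/-- O3 -/
lemma opt_flip_false (hG : G.IsRegularOfDegree 3) {c : V → Bool} (h : Opt G c) (hd : 0 < imb c)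
    {v : V} (hv : c v = false) (hm : md G c v = 1) : Opt G (flp c v) := by
  apply Opt_of_Psi_eq h
  rw [Psi_flp hG, hv, hm]
  have he := imb_even hG c
  simp only [Bool.false_eq_true, if_false]
  unfold Psi
  rw [abs_of_pos hd, abs_of_nonneg (by omega)]
  push_cast
  ring

/-- O4 -/
lemma opt_flip_true (hG : G.IsRegularOfDegree 3) {c : V → Bool} (h : Opt G c) (hd : 0 ≤ imb c)
    {v : V} (hv : c v = true) (hm : md G c v = 2) : Opt G (flp c v) := by
  apply Opt_of_Psi_eq h
  rw [Psi_flp hG, hv, hm]
  simp only [if_true]
  unfold Psi
  rw [abs_of_nonneg hd, abs_of_nonneg (by omega)]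
  push_cast
  ring

/-- counting the bichromatic edges from both sides -/
lemma cross_count (hG : G.IsRegularOfDegree 3) (c : V → Bool) :
    ∑ v, (if c v = true then -(md G c v : ℤ) else (md G c v : ℤ)) = 3 * imb c := by
  have h1 : ∀ v, (if c v = true then -(md G c v : ℤ) else (md G c v : ℤ)) =
      3 * (if c v = true then (-1 : ℤ) else 1) +
      (if c v = true then (((G.neighborFinset v).filter (fun u => ¬ c u = c v)).card : ℤ)
        else -(((G.neighborFinset v).filter (fun u => ¬ c u = c v)).card : ℤ)) := by
    intro v
    have := md_add hG c v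
    split_ifs <;> omega
  rw [Finset.sum_congr rfl (fun v _ => h1 v), Finset.sum_add_distrib, ← Finset.mul_sum]
  have h2 : ∑ v, (if c v = true then (((G.neighborFinset v).filter (fun u => ¬ c u = c v)).card : ℤ)
        else -(((G.neighborFinset v).filter (fun u => ¬ c u = c v)).card : ℤ)) = 0 := by
    have h3 : ∀ v, (if c v = true then (((G.neighborFinset v).filter (fun u => ¬ c u = c v)).card : ℤ)
        else -(((G.neighborFinset v).filter (fun u => ¬ c u = c v)).card : ℤ)) =
        ∑ u, (if G.Adj v u then ((if c v = true then (1:ℤ) else 0) - (if c u = true then (1:ℤ) else 0)) else 0) := by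
      intro v
      have : ∀ u, (if G.Adj v u then ((if c v = true then (1:ℤ) else 0) - (if c u = true then (1:ℤ) else 0)) else 0) =
          (if u ∈ (G.neighborFinset v).filter (fun u => ¬ c u = c v) then
            (if c v = true then (1:ℤ) else -1) else 0) := by
        intro u
        by_cases ha : G.Adj v u <;> simp [ha] <;> cases c u <;> cases c v <;> simp
      rw [Finset.sum_congr rfl (fun u _ => this u), Finset.sum_ite_mem]
      simp only [Finset.univ_inter, Finset.sum_const]
      split_ifs <;> simp
    rw [Finset.sum_congr rfl (fun v _ => h3 v)]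
    have h4 : ∑ v : V, ∑ u : V, (if G.Adj v u then ((if c v = true then (1:ℤ) else 0) - (if c u = true then (1:ℤ) else 0)) else 0)
      = ∑ v : V, ∑ u : V, (if G.Adj v u then (if c v = true then (1:ℤ) else 0) else 0) -
        ∑ v : V, ∑ u : V, (if G.Adj v u then (if c u = true then (1:ℤ) else 0) else 0) := by
      rw [← Finset.sum_sub_distrib]
      apply Finset.sum_congr rfl
      intro v _
      rw [← Finset.sum_sub_distrib]
      apply Finset.sum_congr rfl
      intro u _
      split_ifs <;> simp
    rw [h4, Finset.sum_comm (s := Finset.univ) (t := Finset.univ)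
      (f := fun v u => (if G.Adj v u then (if c u = true then (1:ℤ) else 0) else 0)), sub_eq_zero]
    apply Finset.sum_congr rfl
    intro v _
    apply Finset.sum_congr rfl
    intro u _
    simp only [G.adj_comm v u]
  rw [h2, add_zero]
  rfl

end Pool.Agent.Helper6_ando
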