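import Pool.Agent.Helper6_ando.Paths

/-!
The two elementary pieces: a site (exchange of `y` and `x`) and a token (one flip).
-/

set_option linter.unusedSectionVars false
set_option linter.unusedTactic false
set_option linter.unnecessarySeqFocus false

namespace Pool.Agent.Helper6_ando

open Finset

variable {V : Type} [Fintype V] [DecidableEq V] {G : SimpleGraph V} [DecidableRel G.Adj]

/-- effect of a single flip of a `false` vertex of same-colour degree one -/
lemma token (hG : G.IsRegularOfDegree 3) {c : V → Bool} {v vb a b : V} (N : Nb G v vb a b)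
    (cv : c v = false) (cvb : c vb = false) (ca : c a = true) (cb : c b = true) :
    md G (flp c v) v = 2 ∧ md G (flp c v) vb + 1 = md G c vb ∧ md G (flp c v) a = md G c a + 1 ∧
    md G (flp c v) b = md G c b + 1 ∧ imb (flp c v) = imb c - 2 ∧
    (∀ u, u ≠ v → u ≠ vb → u ≠ a → u ≠ b → md G (flp c v) u = md G c u) := by
  have mv : md G c v = 1 := by
    rw [N.md_eq c, cv, cvb, ca, cb]; simp
  refine ⟨?_, ?_, ?_, ?_, imb_flp_false cv, ?_⟩
  · have := md_flp_self hG c v; omega
  · exact md_flp_same N.a1 (by rw [cv, cvb])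
  · exact md_flp_diff N.a2 (by rw [cv, ca]; simp)
  · exact md_flp_diff N.a3 (by rw [cv, cb]; simp)
  · intro u h0 h1 h2 h3
    apply md_flp_far h0
    intro h
    rcases N.all u h with h | h | h
    · exact h1 h
    · exact h2 h
    · exact h3 h

/-- effect of exchanging `y` (`false`) and its `true` neighbour `x` -/
lemma site (hG : G.IsRegularOfDegree 3) (hT : NoTri G) {c : V → Bool} {x y s t yb y' : V}
    (Nx : Nb G x y s t) (Ny : Nb G y yb x y')
    (cx : c x = true) (cy : c y = false) (cs : c s = false) (ct : c t = false)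
    (cyb : c yb = false) (cy' : c y' = true) :
    md G (flp (flp c y) x) x = 2 ∧ md G (flp (flp c y) x) y = 1 ∧
    md G (flp (flp c y) x) yb + 1 = md G c yb ∧
    md G (flp (flp c y) x) y' = md G c y' + 1 ∧
    md G (flp (flp c y) x) s = md G c s + 1 ∧
    md G (flp (flp c y) x) t = md G c t + 1 ∧
    imb (flp (flp c y) x) = imb c ∧
    (∀ u, u ≠ x → u ≠ y → u ≠ s → u ≠ t → u ≠ yb → u ≠ y' →
      md G (flp (flp c y) x) u = md G c u) := by
  have hxy := Nx.a1
  have hxs := Nx.a2
  have hxt := Nx.a3
  have hyyb := Ny.a1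
  have hyy' := Ny.a3
  have mx : md G c x = 0 := by rw [Nx.md_eq c, cx, cy, cs, ct]; simp
  have my : md G c y = 1 := by rw [Ny.md_eq c, cx, cy, cyb, cy']; simp
  have cx1 : flp c y x = true := by rw [flp_ne _ hxy.ne, cx]
  have hyS : ¬ G.Adj y s := fun h => hT x y s hxy h hxs
  have hyT : ¬ G.Adj y t := fun h => hT x y t hxy h hxt
  have hxyb : ¬ G.Adj x yb := fun h => hT x y yb hxy hyyb h
  have hxy' : ¬ G.Adj x y' := fun h => hT x y y' hxy hyy' h
  have mx1 : md G (flp c y) x = 1 := by
    rw [md_flp_diff hxy.symm (by rw [cx, cy]; simp), mx]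
  have my1 : md G (flp c y) y = 2 := by
    have := md_flp_self hG c y; omega
  have cs1 : flp c y s = false := by rw [flp_ne _ Nx.ab.symm, cs]
  have ct1 : flp c y t = false := by rw [flp_ne _ Nx.ad.symm, ct]
  have cy1 : flp c y y = true := by rw [flp_same, cy]; rfl
  refine ⟨?_, ?_, ?_, ?_, ?_, ?_, ?_, ?_⟩
  · have := md_flp_self hG (flp c y) x; omega
  · have := md_flp_same (c := flp c y) hxy (by rw [cx1, cy1]); omega
  · rw [md_flp_far (fun h => by rw [h, cx] at cyb; exact absurd cyb (by simp)) hxyb]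
    exact md_flp_same hyyb (by rw [cy, cyb])
  · rw [md_flp_far Ny.bd.symm hxy', md_flp_diff hyy' (by rw [cy, cy']; simp)]
  · rw [md_flp_diff hxs (by rw [cx1, cs1]; simp), md_flp_far Nx.ab.symm hyS]
  · rw [md_flp_diff hxt (by rw [cx1, ct1]; simp), md_flp_far Nx.ad.symm hyT]
  · rw [imb_flp_true cx1, imb_flp_false cy]; ring
  · intro u h1 h2 h3 h4 h5 h6
    have e1 : ¬ G.Adj x u := by
      intro h
      rcases Nx.all u h with h | h | h
      · exact h2 h
      · exact h3 h
      · exact h4 h
    have e2 : ¬ G.Adj y u := by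
      intro h
      rcases Ny.all u h with h | h | h
      · exact h5 h
      · exact h1 h
      · exact h6 h
    rw [md_flp_far h1 e1, md_flp_far h2 e2]

end Pool.Agent.Helper6_ando
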