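import Pool.Agent.Helper6_ando.Units

/-!
The rule needed to keep the partners `p`, `pb` of later tokens unused.
-/

set_option linter.unusedSectionVars false
set_option linter.unusedTactic false
set_option linter.unnecessarySeqFocus false
set_option linter.unusedVariables false

namespace Pool.Agent.Helper6_ando

open Finset

variable {V : Type} [Fintype V] [DecidableEq V] {G : SimpleGraph V} [DecidableRel G.Adj]

lemma PS.Q1 {c : V → Bool} (P : PS G c) (h4 : 4 ≤ imb c) (hT : NoTri G) (hQ : NoQuad G)
    {x y yb y' z zb p pb t g : V} (D : D1 G c x y yb y' z zb p pb t)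
    (cg : c g = false) (mg : md G c g = 1) (hg : G.Adj pb g)
    (hg0 : ∀ u, G.Adj g u → c u = true → u ≠ pb → md G c u = 0)
    (hne : g ≠ yb) (hny : ¬ G.Adj g y') : False := by
  have hG := P.reg
  have mpb := D.pb1 P
  have mp := D.mp
  have cy := D.ty.1
  have my := D.ty.2.1
  have my'0 : md G c y' = 0 := D.ty.2.2 y' D.Ny.a3 D.cy'
  have hxy := D.Nx.a1
  have hxz := D.Nx.a2
  have hxt := D.Nx.a3
  have hzp := D.Nz.a3
  have hyz : ¬ G.Adj y z := fun h => hT x y z hxy h hxz
  -- basic non-adjacencies of g
  have g_ne_y : g ≠ y := by
    rintro rfl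
    have := D.ty.2.2 pb hg.symm D.cpb
    omega
  have g_na_y : ¬ G.Adj y g := by
    intro h
    exact hne (uniq_same (P.le1 y) h D.Ny.a1 (by rw [cg, cy]) (by rw [D.cyb, cy]))
  have g_ne_z : g ≠ z := by
    rintro rfl
    exact hT g p pb hzp D.ap hg.symm
  have g_na_z : ¬ G.Adj z g := by
    intro h
    have : g = zb := uniq_same (P.le1 z) h D.Nz.a1 (by rw [cg, D.cz]) (by rw [D.czb, D.cz])
    subst this
    exact hQ z g pb p (fun e => by have := D.cpb; rw [← e, D.cz] at this; exact absurd this (by simp))
      (fun e => by have := D.cp; rw [← e, cg] at this; exact absurd this (by simp)) h hg.symm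
      D.ap.symm hzp.symm
  have g_ne_x : g ≠ x := by
    rintro rfl
    rw [D.cx] at cg; exact absurd cg (by simp)
  have g_na_x : ¬ G.Adj x g := by
    intro h
    rcases D.Nx.all g h with h | h | h
    · exact g_ne_y h
    · exact g_ne_z h
    · rw [h, D.mt] at mg; exact absurd mg (by simp)
  have pb_na_y : ¬ G.Adj y pb := by
    intro h
    have := D.ty.2.2 pb h D.cpb
    omega
  have pb_na_z : ¬ G.Adj z pb := fun h => hT z p pb hzp D.ap h
  have pb_na_x : ¬ G.Adj x pb := fun h => md_zero D.mx pb h (by rw [D.cpb, D.cx])
  have pb_ne_y : pb ≠ y := by rintro rfl; have := D.cpb; rw [cy] at this; exact absurd this (by simp)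
  have pb_ne_z : pb ≠ z := by rintro rfl; have := D.cpb; rw [D.cz] at this; exact absurd this (by simp)
  have pb_ne_x : pb ≠ x := by rintro rfl; rw [D.mx] at mpb; exact absurd mpb (by simp)
  have pb_ne_g : pb ≠ g := hg.ne
  have z_ne_y : z ≠ y := D.Nx.ab.symm
  have x_ne_y : x ≠ y := hxy.ne
  have x_ne_z : x ≠ z := hxz.ne
  -- first three flips
  obtain ⟨o3, i3, mx3⟩ := P.opt3 D.cx D.mx cy my D.cz D.mz hxy hxz D.Nx.ab hyz
  have hd := P.two_le
  -- the list of flips
  have nd3 : ([y, z, x] : List V).Nodup := by
    simp [z_ne_y.symm, x_ne_y.symm, x_ne_z.symm]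
  have nd4 : ([y, z, x, g] : List V).Nodup := by
    simp [z_ne_y.symm, x_ne_y.symm, x_ne_z.symm, g_ne_y.symm, g_ne_z.symm, g_ne_x.symm]
  have nd5 : ([y, z, x, g, pb] : List V).Nodup := by
    simp [z_ne_y.symm, x_ne_y.symm, x_ne_z.symm, g_ne_y.symm, g_ne_z.symm, g_ne_x.symm,
      pb_ne_y.symm, pb_ne_z.symm, pb_ne_x.symm, pb_ne_g.symm]
  have f3 : flp (flp (flp c y) z) x = flips c [y, z, x] := rfl
  have f4 : flp (flips c [y, z, x]) g = flips c [y, z, x, g] := rfl
  have f5 : flp (flips c [y, z, x, g]) pb = flips c [y, z, x, g, pb] := rfl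
  rw [f3] at o3 i3 mx3
  -- fourth flip
  have cg3 : flips c [y, z, x] g = false := by
    rw [flips_notMem (by simp [g_ne_y, g_ne_z, g_ne_x]), cg]
  have mg3 : md G (flips c [y, z, x]) g = 1 := by
    have h := md_flips hG c nd3 g
    rw [if_neg (by simp [g_ne_y, g_ne_z, g_ne_x])] at h
    simp only [List.map_cons, List.map_nil, List.sum_cons, List.sum_nil, dl_far g_na_y,
      dl_far g_na_z, dl_far g_na_x] at h
    omega
  have o4 := opt_flip_false hG o3 (by omega) cg3 mg3
  have i4 := imb_flp_false (c := flips c [y, z, x]) cg3
  rw [f4] at o4 i4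
  have cpb4 : flips c [y, z, x, g] pb = true := by
    rw [flips_notMem (by simp [pb_ne_y, pb_ne_z, pb_ne_x, pb_ne_g]), D.cpb]
  have mpb4 : md G (flips c [y, z, x, g]) pb = 2 := by
    have h := md_flips hG c nd4 pb
    rw [if_neg (by simp [pb_ne_y, pb_ne_z, pb_ne_x, pb_ne_g])] at h
    simp only [List.map_cons, List.map_nil, List.sum_cons, List.sum_nil] at h
    rw [dl_far pb_na_y,
      dl_far pb_na_z, dl_far pb_na_x, dl_diff hg.symm (by rw [cg, D.cpb]; simp)] at h
    omega
  have o5 := opt_flip_true hG o4 (by omega) cpb4 mpb4
  have i5 := imb_flp_true (c := flips c [y, z, x, g]) cpb4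
  rw [f5] at o5 i5
  -- the vertex t
  have t_ne_y : t ≠ y := D.Nx.ad.symm
  have t_ne_z : t ≠ z := D.Nx.bd.symm
  have t_ne_x : t ≠ x := hxt.ne'
  have t_ne_g : t ≠ g := by rintro rfl; rw [D.mt] at mg; exact absurd mg (by simp)
  have t_ne_pb : t ≠ pb := by rintro rfl; rw [D.mt] at mpb; exact absurd mpb (by simp)
  have W0na : ∀ v w, c v = false → md G c v = 0 → c w = false → ¬ G.Adj w v := by
    intro v w h1 h2 h3 h
    exact md_zero h2 w h.symm (by rw [h3, h1])
  by_cases htp : G.Adj pb t
  · -- t has same-colour degree two
    have h := md_flips hG c nd5 t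
    rw [if_neg (by simp [t_ne_y, t_ne_z, t_ne_x, t_ne_g, t_ne_pb])] at h
    simp only [List.map_cons, List.map_nil, List.sum_cons, List.sum_nil] at h
    rw [dl_far (W0na t y D.ct D.mt cy), dl_far (W0na t z D.ct D.mt D.cz),
      dl_far (W0na t g D.ct D.mt cg), dl_diff hxt (by rw [D.ct, D.cx]; simp),
      dl_diff htp (by rw [D.ct, D.cpb]; simp), D.mt] at h
    have := opt_false_le_one hG o5 (by omega) (v := t) (by
      rw [flips_notMem (by simp [t_ne_y, t_ne_z, t_ne_x, t_ne_g, t_ne_pb]), D.ct])
    omega
  · have hle : ∀ u, md G (flips c [y, z, x, g, pb]) u ≤ 1 := by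
      intro u
      have h := md_flips hG c nd5 u
      simp only [List.map_cons, List.map_nil, List.sum_cons, List.sum_nil] at h
      by_cases uy : u = y
      · subst uy
        rw [if_pos (by simp)] at h
        rw [dl_self, dl_far (fun h => hyz h.symm), dl_diff hxy (by rw [cy, D.cx]; simp),
          dl_far (fun h => g_na_y h.symm), dl_far (fun h => pb_na_y h.symm), my] at h
        omega
      by_cases uz : u = z
      · subst uz
        rw [if_pos (by simp)] at h
        rw [dl_self, dl_far hyz, dl_diff hxz (by rw [D.cz, D.cx]; simp),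
          dl_far (fun h => g_na_z h.symm), dl_far (fun h => pb_na_z h.symm), D.mz] at h
        omega
      by_cases ux : u = x
      · subst ux
        rw [if_pos (by simp)] at h
        rw [dl_self, dl_diff hxy.symm (by rw [cy, D.cx]; simp),
          dl_diff hxz.symm (by rw [D.cz, D.cx]; simp),
          dl_far (fun h => g_na_x h.symm), dl_far (fun h => pb_na_x h.symm), D.mx] at h
        omega
      by_cases ug : u = g
      · subst ug
        rw [if_pos (by simp)] at h
        rw [dl_self, dl_far g_na_y, dl_far g_na_z, dl_far g_na_x,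
          dl_diff hg (by rw [cg, D.cpb]; simp), mg] at h
        omega
      by_cases up : u = pb
      · subst up
        rw [if_pos (by simp)] at h
        rw [dl_self, dl_far pb_na_y, dl_far pb_na_z, dl_far pb_na_x,
          dl_diff hg.symm (by rw [cg, D.cpb]; simp), mpb] at h
        omega
      rw [if_neg (by simp [uy, uz, ux, ug, up])] at h
      have mu := P.le1 u
      cases cu : c u
      · -- u false
        have dy : dl G c y u ≤ 0 := by
          by_cases a : G.Adj y u
          · rw [dl_same a (by rw [cu, cy])]; norm_num
          · rw [dl_far a]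
        have dz : dl G c z u ≤ 0 := by
          by_cases a : G.Adj z u
          · rw [dl_same a (by rw [cu, D.cz])]; norm_num
          · rw [dl_far a]
        have dg : dl G c g u ≤ 0 := by
          by_cases a : G.Adj g u
          · rw [dl_same a (by rw [cu, cg])]; norm_num
          · rw [dl_far a]
        by_cases ax : G.Adj x u
        · have ut : u = t := by
            rcases D.Nx.all u ax with e | e | e
            · exact absurd e uy
            · exact absurd e uz
            · exact e
          subst ut
          rw [dl_diff ax (by rw [D.ct, D.cx]; simp), dl_far htp, D.mt] at h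
          omega
        · rw [dl_far ax] at h
          by_cases ap : G.Adj pb u
          · have mu0 : md G c u = 0 := by
              by_contra hm
              exact P.R1 D.cpb mpb cg mg cu (by omega) hg ap (Ne.symm ug)
                (fun e => hT g u pb e ap.symm hg.symm)
            rw [dl_diff ap (by rw [cu, D.cpb]; simp), mu0] at h
            omega
          · rw [dl_far ap] at h
            omega
      · -- u true
        have dx : dl G c x u = 0 := by
          apply dl_far
          intro a
          exact md_zero D.mx u a (by rw [cu, D.cx])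
        rw [dx] at h
        by_cases upp : u = p
        · subst upp
          rw [dl_far (fun e => by have := D.ty.2.2 u e D.cp; rw [mp] at this; exact absurd this (by simp)),
            dl_diff hzp (by rw [D.cp, D.cz]; simp),
            dl_far (fun e => hT g u pb e D.ap hg.symm),
            dl_same D.ap.symm (by rw [D.cp, D.cpb]), mp] at h
          omega
        · have apu : ¬ G.Adj pb u := by
            intro e
            exact upp (uniq_same (P.le1 pb) e D.ap.symm (by rw [cu, D.cpb]) (by rw [D.cp, D.cpb]))
          rw [dl_far apu] at h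
          by_cases ay : G.Adj y u
          · have uy' : u = y' := by
              rcases D.Ny.all u ay with e | e | e
              · rw [e, D.cyb] at cu; exact absurd cu (by simp)
              · exact absurd e ux
              · exact e
            subst uy'
            have nz : ¬ G.Adj z u := fun e => hQ x y u z (Ne.symm ux) z_ne_y.symm hxy ay e.symm hxz.symm
            rw [dl_far nz, dl_far hny, my'0, dl_diff ay (by rw [cu, cy]; simp)] at h
            omega
          · rw [dl_far ay] at h
            have az : ¬ G.Adj z u := by
              intro e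
              rcases D.Nz.all u e with e | e | e
              · rw [e, D.czb] at cu; exact absurd cu (by simp)
              · exact ux e
              · exact upp e
            rw [dl_far az] at h
            by_cases ag : G.Adj g u
            · rw [dl_diff ag (by rw [cu, cg]; simp), hg0 u ag cu up] at h
              omega
            · rw [dl_far ag] at h
              omega
    have := P.min _ o5 hle
    rw [i5, i4, i3, abs_of_nonneg (by omega)] at this
    omega

end Pool.Agent.Helper6_ando
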