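import Pool.Agent.Helper6_ando.Bal

/-!
Local rules for extremal colourings.
-/

set_option linter.unusedSectionVars false
set_option linter.unusedTactic false
set_option linter.unnecessarySeqFocus false

namespace Pool.Agent.Helper6_ando

open Finset

variable {V : Type} [Fintype V] [DecidableEq V] {G : SimpleGraph V} [DecidableRel G.Adj]

/-- `v` has exactly the three neighbours `a`, `b`, `d` -/
structure Nb (G : SimpleGraph V) (v a b d : V) : Prop where
  a1 : G.Adj v a
  a2 : G.Adj v b
  a3 : G.Adj v d
  ab : a ≠ b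
  ad : a ≠ d
  bd : b ≠ d
  all : ∀ u, G.Adj v u → u = a ∨ u = b ∨ u = d

/-- no triangles -/
def NoTri (G : SimpleGraph V) : Prop := ∀ a b c, G.Adj a b → G.Adj b c → G.Adj a c → False

/-- no quadrilaterals -/
def NoQuad (G : SimpleGraph V) : Prop :=
  ∀ a b c d, a ≠ c → b ≠ d → G.Adj a b → G.Adj b c → G.Adj c d → G.Adj d a → False

/-- an optimal colouring with all same-colour degrees at most one, positive imbalance, and
smallest absolute imbalance among such colourings -/
structure PS (G : SimpleGraph V) [DecidableRel G.Adj] (c : V → Bool) : Prop where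
  reg : G.IsRegularOfDegree 3
  opt : Opt G c
  le1 : ∀ v, md G c v ≤ 1
  pos : 0 < imb c
  min : ∀ c', Opt G c' → (∀ v, md G c' v ≤ 1) → imb c ≤ |imb c'|

lemma PS.two_le {c : V → Bool} (P : PS G c) : 2 ≤ imb c := by
  have := imb_even P.reg c
  have := P.pos
  omega

lemma flp_app (c : V → Bool) (v u : V) : flp c v u = if u = v then !(c v) else c u := by
  unfold flp
  rw [Function.update_apply]

lemma Nb.of_three (hG : G.IsRegularOfDegree 3) {v a b d : V} (h1 : G.Adj v a) (h2 : G.Adj v b)
    (h3 : G.Adj v d) (hab : a ≠ b) (had : a ≠ d) (hbd : b ≠ d) : Nb G v a b d := by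
  refine ⟨h1, h2, h3, hab, had, hbd, ?_⟩
  have hsub : ({a, b, d} : Finset V) ⊆ G.neighborFinset v := by
    intro u hu
    simp only [Finset.mem_insert, Finset.mem_singleton] at hu
    rw [SimpleGraph.mem_neighborFinset]
    rcases hu with rfl | rfl | rfl <;> assumption
  have hcard : ({a, b, d} : Finset V).card = 3 := by
    rw [Finset.card_eq_three]; exact ⟨a, b, d, hab, had, hbd, rfl⟩
  have heq := Finset.eq_of_subset_of_card_le hsub (by rw [hcard]; exact (hG v).le)
  intro u hu
  rw [← SimpleGraph.mem_neighborFinset, ← heq] at hu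
  simpa using hu

lemma exists_Nb (hG : G.IsRegularOfDegree 3) (v : V) : ∃ a b d, Nb G v a b d := by
  have h : (G.neighborFinset v).card = 3 := hG v
  rw [Finset.card_eq_three] at h
  obtain ⟨a, b, d, hab, had, hbd, he⟩ := h
  have hm : ∀ u, u ∈ ({a, b, d} : Finset V) → G.Adj v u := by
    intro u hu; rw [← he] at hu; simpa using hu
  exact ⟨a, b, d, Nb.of_three hG (hm a (by simp)) (hm b (by simp)) (hm d (by simp)) hab had hbd⟩

lemma Nb.md_eq {v a b d : V} (h : Nb G v a b d) (c : V → Bool) :
    md G c v = (if c a = c v then 1 else 0) + (if c b = c v then 1 else 0) +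
      (if c d = c v then 1 else 0) := by
  have he : G.neighborFinset v = {a, b, d} := by
    ext u
    rw [SimpleGraph.mem_neighborFinset]
    simp only [Finset.mem_insert, Finset.mem_singleton]
    constructor
    · exact h.all u
    · rintro (rfl | rfl | rfl)
      · exact h.a1
      · exact h.a2
      · exact h.a3
  unfold md
  rw [he, Finset.filter_insert, Finset.filter_insert, Finset.filter_singleton]
  have h1 := h.ab
  have h2 := h.ad
  have h3 := h.bd
  split_ifs <;> simp [*]

lemma Nb.rot {v a b d : V} (h : Nb G v a b d) : Nb G v b d a :=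
  ⟨h.a2, h.a3, h.a1, h.bd, h.ab.symm, h.ad.symm, fun u hu => by
    rcases h.all u hu with h | h | h <;> simp [h]⟩

lemma Nb.swp {v a b d : V} (h : Nb G v a b d) : Nb G v a d b :=
  ⟨h.a1, h.a3, h.a2, h.ad, h.ab, h.bd.symm, fun u hu => by
    rcases h.all u hu with h | h | h <;> simp [h]⟩

lemma Nb.with {v : V} {a b d : V} (h : Nb G v a b d) {u : V} (hu : G.Adj v u) :
    ∃ s t, Nb G v u s t := by
  rcases h.all u hu with rfl | rfl | rfl
  · exact ⟨_, _, h⟩
  · exact ⟨_, _, h.rot⟩
  · exact ⟨_, _, h.rot.rot⟩

/-- a vertex of same-colour degree one, split as partner and two neighbours of the other colour -/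
lemma split1 (hG : G.IsRegularOfDegree 3) {c : V → Bool} {v : V} (h : md G c v = 1) :
    ∃ p a b, Nb G v p a b ∧ c p = c v ∧ c a = !(c v) ∧ c b = !(c v) := by
  obtain ⟨a, b, d, hn⟩ := exists_Nb hG v
  rw [hn.md_eq c] at h
  by_cases h1 : c a = c v
  · refine ⟨a, b, d, hn, h1, ?_, ?_⟩
    · by_cases h2 : c b = c v
      · rw [if_pos h1, if_pos h2] at h; omega
      · revert h2; cases c b <;> cases c v <;> simp
    · by_cases h2 : c d = c v
      · rw [if_pos h1, if_pos h2] at h; omega
      · revert h2; cases c d <;> cases c v <;> simp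
  · by_cases h2 : c b = c v
    · refine ⟨b, d, a, hn.rot, h2, ?_, ?_⟩
      · by_cases h3 : c d = c v
        · rw [if_pos h2, if_pos h3] at h; omega
        · revert h3; cases c d <;> cases c v <;> simp
      · revert h1; cases c a <;> cases c v <;> simp
    · by_cases h3 : c d = c v
      · refine ⟨d, a, b, hn.rot.rot, h3, ?_, ?_⟩
        · revert h1; cases c a <;> cases c v <;> simp
        · revert h2; cases c b <;> cases c v <;> simp
      · rw [if_neg h1, if_neg h2, if_neg h3] at h; omega

/-- version of `split1` with a prescribed neighbour of the other colour -/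
lemma split1' (hG : G.IsRegularOfDegree 3) {c : V → Bool} {v x : V} (h : md G c v = 1)
    (hx : G.Adj v x) (hc : c x ≠ c v) :
    ∃ p b, Nb G v p x b ∧ c p = c v ∧ c b = !(c v) := by
  obtain ⟨p, a, b, hn, hp, ha, hb⟩ := split1 hG h
  rcases hn.all x hx with rfl | rfl | rfl
  · exact absurd hp hc
  · exact ⟨p, b, hn, hp, hb⟩
  · exact ⟨p, a, hn.swp, hp, ha⟩

lemma split0 (hG : G.IsRegularOfDegree 3) {c : V → Bool} {v : V} (h : md G c v = 0) :
    ∃ a b d, Nb G v a b d ∧ c a = !(c v) ∧ c b = !(c v) ∧ c d = !(c v) := by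
  obtain ⟨a, b, d, hn⟩ := exists_Nb hG v
  refine ⟨a, b, d, hn, ?_, ?_, ?_⟩
  · have := md_zero h a hn.a1
    revert this; cases c a <;> cases c v <;> simp
  · have := md_zero h b hn.a2
    revert this; cases c b <;> cases c v <;> simp
  · have := md_zero h d hn.a3
    revert this; cases c d <;> cases c v <;> simp

lemma split0' (hG : G.IsRegularOfDegree 3) {c : V → Bool} {v x : V} (h : md G c v = 0)
    (hx : G.Adj v x) :
    ∃ b d, Nb G v x b d ∧ c x = !(c v) ∧ c b = !(c v) ∧ c d = !(c v) := by
  obtain ⟨a, b, d, hn, ha, hb, hd⟩ := split0 hG h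
  rcases hn.all x hx with rfl | rfl | rfl
  · exact ⟨b, d, hn, ha, hb, hd⟩
  · exact ⟨d, a, hn.rot, hb, hd, ha⟩
  · exact ⟨a, b, hn.rot.rot, hd, ha, hb⟩

/-- same-colour neighbours are unique for same-colour degree at most one -/
lemma uniq_same {c : V → Bool} {v s t : V} (h : md G c v ≤ 1) (hs : G.Adj v s) (ht : G.Adj v t)
    (cs : c s = c v) (ct : c t = c v) : s = t := by
  have h1 := one_le_md hs cs
  obtain ⟨w, _, _, hw⟩ := md_one (by omega : md G c v = 1)
  rw [hw s hs cs, hw t ht ct]

/-- R1: a `true` vertex of same-colour degree one has no two nonadjacent `false` neighbours of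
same-colour degree one -/
lemma PS.R1 {c : V → Bool} (P : PS G c) {p z w : V} (cp : c p = true) (mp : md G c p = 1)
    (cz : c z = false) (mz : md G c z = 1) (cw : c w = false) (mw : md G c w = 1)
    (hpz : G.Adj p z) (hpw : G.Adj p w) (hzw : z ≠ w) (hna : ¬ G.Adj z w) : False := by
  have hG := P.reg
  have hd := P.two_le
  have o1 := opt_flip_false hG P.opt P.pos cz mz
  have i1 := imb_flp_false (c := c) cz
  have hpz' : p ≠ z := hpz.ne
  have hpw' : p ≠ w := hpw.ne
  have cp1 : flp c z p = true := by rw [flp_ne _ hpz', cp]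
  have cw1 : flp c z w = false := by rw [flp_ne _ hzw.symm, cw]
  have mp1 : md G (flp c z) p = 2 := by
    rw [md_flp_diff hpz.symm (by rw [cp, cz]; simp), mp]
  have mw1 : md G (flp c z) w = 1 := by
    rw [md_flp_far hzw.symm hna, mw]
  have o2 := opt_flip_true hG o1 (by omega) cp1 mp1
  have i2 := imb_flp_true (c := flp c z) cp1
  have mw2 : md G (flp (flp c z) p) w = 2 := by
    rw [md_flp_diff hpw (by rw [cp1, cw1]; simp), mw1]
  have := opt_false_le_one hG o2 (by omega) (v := w) (by rw [flp_ne _ hpw'.symm, cw1])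
  omega

/-- the optimal colouring obtained by flipping two nonadjacent `false` vertices `y`, `z` of
same-colour degree one and then a common neighbour `x` with all neighbours `false` -/
lemma PS.opt3 {c : V → Bool} (P : PS G c) {x y z : V} (cx : c x = true) (mx : md G c x = 0)
    (cy : c y = false) (my : md G c y = 1) (cz : c z = false) (mz : md G c z = 1)
    (hxy : G.Adj x y) (hxz : G.Adj x z) (hyz : y ≠ z) (hna : ¬ G.Adj y z) :
    Opt G (flp (flp (flp c y) z) x) ∧ imb (flp (flp (flp c y) z) x) = imb c - 2 ∧
    md G (flp (flp (flp c y) z) x) x = 1 := by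
  have hG := P.reg
  have hd := P.two_le
  have hxy' := hxy.ne
  have hxz' := hxz.ne
  have i1 := imb_flp_false (c := c) cy
  have cz1 : flp c y z = false := by rw [flp_ne _ hyz.symm, cz]
  have i2 := imb_flp_false (c := flp c y) cz1
  have cx1 : flp c y x = true := by rw [flp_ne _ hxy', cx]
  have cx2 : flp (flp c y) z x = true := by rw [flp_ne _ hxz', cx1]
  have i3 := imb_flp_true (c := flp (flp c y) z) cx2
  have mz1 : md G (flp c y) z = 1 := by rw [md_flp_far hyz.symm hna, mz]
  have mx1 : md G (flp c y) x = 1 := by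
    rw [md_flp_diff hxy.symm (by rw [cx, cy]; simp), mx]
  have mx2 : md G (flp (flp c y) z) x = 2 := by
    rw [md_flp_diff hxz.symm (by rw [cx1, cz1]; simp), mx1]
  have t1 := tot_flp hG c y
  have t2 := tot_flp hG (flp c y) z
  have t3 := tot_flp hG (flp (flp c y) z) x
  rw [my] at t1
  rw [mz1] at t2
  rw [mx2] at t3
  refine ⟨?_, by omega, ?_⟩
  · apply Opt_of_Psi_eq P.opt
    unfold Psi
    rw [i3, i2, i1, t3, t2, t1, abs_of_nonneg (by omega), abs_of_nonneg (by omega)]
    push_cast
    ring
  · have := md_flp_self hG (flp (flp c y) z) x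
    omega

/-- R3: if the imbalance is at least four, a `true` vertex with all neighbours `false` does not have
three pairwise nonadjacent neighbours of same-colour degree one -/
lemma PS.R3 {c : V → Bool} (P : PS G c) (h4 : 4 ≤ imb c) {x y z w : V} (cx : c x = true)
    (mx : md G c x = 0) (cy : c y = false) (my : md G c y = 1) (cz : c z = false)
    (mz : md G c z = 1) (cw : c w = false) (mw : md G c w = 1)
    (hxy : G.Adj x y) (hxz : G.Adj x z) (hxw : G.Adj x w) (hyz : y ≠ z) (hyw : y ≠ w) (hzw : z ≠ w)
    (hna : ¬ G.Adj y z) (hnb : ¬ G.Adj y w) (hnc : ¬ G.Adj z w) : False := by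
  obtain ⟨o, i, _⟩ := P.opt3 cx mx cy my cz mz hxy hxz hyz hna
  have m1 : md G (flp c y) w = 1 := by rw [md_flp_far hyw.symm hnb, mw]
  have m2 : md G (flp (flp c y) z) w = 1 := by rw [md_flp_far hzw.symm hnc, m1]
  have c2 : flp (flp c y) z w = false := by rw [flp_ne _ hzw.symm, flp_ne _ hyw.symm, cw]
  have cx2 : flp (flp c y) z x = true := by rw [flp_ne _ hxz.ne, flp_ne _ hxy.ne, cx]
  have m3 : md G (flp (flp (flp c y) z) x) w = 2 := by
    rw [md_flp_diff hxw (by rw [cx2, c2]; simp), m2]
  have := opt_false_le_one P.reg o (by omega) (v := w) (by rw [flp_ne _ hxw.ne', c2])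
  omega

/-- `y` is `false`, of same-colour degree one, and its `true` neighbours have same-colour degree zero -/
def T0 (G : SimpleGraph V) [DecidableRel G.Adj] (c : V → Bool) (y : V) : Prop :=
  c y = false ∧ md G c y = 1 ∧ ∀ u, G.Adj y u → c u = true → md G c u = 0

/-- the double zero rule -/
lemma PS.rule00 {c : V → Bool} (P : PS G c) (hT : NoTri G) (hQ : NoQuad G) {x y z w : V}
    (cx : c x = true) (mx : md G c x = 0)
    (hy : T0 G c y) (hz : T0 G c z) (hyz : y ≠ z) (N : Nb G x y z w) (mw : md G c w = 0) : False := by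
  have hG := P.reg
  obtain ⟨cy, my, hy0⟩ := hy
  obtain ⟨cz, mz, hz0⟩ := hz
  have hxy := N.a1
  have hxz := N.a2
  have hxw := N.a3
  have cw : c w = false := by
    have := md_zero mx w hxw
    rw [cx] at this
    cases h : c w
    · rfl
    · exact absurd h (fun h => this h)
  have hna : ¬ G.Adj y z := fun h => hT x y z hxy h hxz
  obtain ⟨o, i, m⟩ := P.opt3 cx mx cy my cz mz hxy hxz hyz hna
  have hle : ∀ u, md G (flp (flp (flp c y) z) x) u ≤ 1 := by
    intro u
    by_cases hux : u = x
    · rw [hux, m]
    -- reduce last flip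
    have cx2 : flp (flp c y) z x = true := by rw [flp_ne _ hxz.ne, flp_ne _ hxy.ne, cx]
    by_cases huy : u = y
    · subst huy
      have e1 := md_flp_self hG c u
      have e2 : md G (flp (flp c u) z) u = md G (flp c u) u := md_flp_far hyz (fun h => hna h.symm)
      have e3 := md_flp_same (c := flp (flp c u) z) (v := x) (u := u) hxy
        (by rw [cx2, flp_ne _ hyz, flp_same, cy]; rfl)
      omega
    by_cases huz : u = z
    · subst huz
      have e0 : md G (flp c y) u = md G c u := md_flp_far hyz.symm hna
      have e1 := md_flp_self hG (flp c y) u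
      have e3 := md_flp_same (c := flp (flp c y) u) (v := x) (u := u) hxz
        (by rw [cx2, flp_same, flp_ne _ hyz.symm, cz]; rfl)
      omega
    have cu2 : flp (flp c y) z u = c u := by rw [flp_ne _ huz, flp_ne _ huy]
    have cu1 : flp c y u = c u := flp_ne _ huy
    have cz1 : flp c y z = false := by rw [flp_ne _ hyz.symm, cz]
    have mu := P.le1 u
    rcases Bool.eq_false_or_eq_true (c u) with cu | cu
    · -- u true
      have hxu : ¬ G.Adj x u := fun h => md_zero mx u h (by rw [cu, cx])
      rw [md_flp_far hux hxu]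
      by_cases h1 : G.Adj y u
      · have hz1 : ¬ G.Adj z u := fun h => hQ x y u z (Ne.symm hux) hyz hxy h1 h.symm hxz.symm
        rw [md_flp_far huz hz1, md_flp_diff h1 (by rw [cu, cy]; simp), hy0 u h1 cu]
      · by_cases h2 : G.Adj z u
        · rw [md_flp_diff h2 (by rw [cu1, cu, cz1]; simp), md_flp_far huy h1, hz0 u h2 cu]
        · rw [md_flp_far huz h2, md_flp_far huy h1]; exact mu
    · -- u false
      by_cases hxu : G.Adj x u
      · have huw : u = w := by
          rcases N.all u hxu with h | h | h
          · exact absurd h huy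
          · exact absurd h huz
          · exact h
        subst huw
        have h1 : ¬ G.Adj y u := fun h => md_zero mw y h.symm (by rw [cy, cu])
        have h2 : ¬ G.Adj z u := fun h => md_zero mw z h.symm (by rw [cz, cu])
        rw [md_flp_diff hxu (by rw [cx2, cu2, cu]; simp), md_flp_far huz h2, md_flp_far huy h1, mw]
      · rw [md_flp_far hux hxu]
        have e1 : md G (flp (flp c y) z) u ≤ md G (flp c y) u := by
          by_cases h2 : G.Adj z u
          · have := md_flp_same (c := flp c y) h2 (by rw [cu1, cu, cz1])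
            omega
          · rw [md_flp_far huz h2]
        have e2 : md G (flp c y) u ≤ md G c u := by
          by_cases h2 : G.Adj y u
          · have := md_flp_same (c := c) h2 (by rw [cu, cy])
            omega
          · rw [md_flp_far huy h2]
        omega
  have := P.min _ o hle
  have hd := P.two_le
  rw [i, abs_of_nonneg (by omega)] at this
  omega

end Pool.Agent.Helper6_ando
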