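import Pool.Agent.Helper6_ando.Exist

/-!
Imbalance two: structure around a `true` vertex with three `false` neighbours of same-colour
degree one.
-/

set_option linter.unusedSectionVars false
set_option linter.unusedTactic false
set_option linter.unnecessarySeqFocus false
set_option linter.unusedVariables false

namespace Pool.Agent.Helper6_ando

open Finset

variable {V : Type} [Fintype V] [DecidableEq V] {G : SimpleGraph V} [DecidableRel G.Adj]

/-- standing hypotheses -/
structure Hy (G : SimpleGraph V) [DecidableRel G.Adj] (c : V → Bool) : Prop where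
  P : PS G c
  two : imb c = 2
  hT : NoTri G
  hQ : NoQuad G
  no : ∀ c' : V → Bool, ¬ Bal G c' Finset.univ

/-- a `true` vertex with three `T0` neighbours -/
structure S3 (G : SimpleGraph V) [DecidableRel G.Adj] (c : V → Bool) (x y z w : V) : Prop where
  N : Nb G x y z w
  cx : c x = true
  mx : md G c x = 0
  ty : T0 G c y
  tz : T0 G c z
  tw : T0 G c w

lemma S3.rot {c : V → Bool} {x y z w : V} (h : S3 G c x y z w) : S3 G c x z w y :=
  ⟨h.N.rot, h.cx, h.mx, h.tz, h.tw, h.ty⟩

lemma S3.swp {c : V → Bool} {x y z w : V} (h : S3 G c x y z w) : S3 G c x y w z :=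
  ⟨h.N.swp, h.cx, h.mx, h.ty, h.tw, h.tz⟩

/-- claim 1 -/
lemma Hy.noD0 {c : V → Bool} (H : Hy G c) {x y yb y' s t : V} (D : D0 G c x y yb y' s t) : False := by
  classical
  have P := H.P
  have hT := H.hT
  have h1 := P.card_TT hT
  rw [H.two] at h1
  have h2 : ({yb} ∪ G.neighborFinset y' : Finset V).card ≤ 4 := by
    have := Finset.card_union_le ({yb} : Finset V) (G.neighborFinset y')
    have h3 : (G.neighborFinset y').card = 3 := P.reg y'
    rw [h3, Finset.card_singleton] at this
    exact this
  have : 0 < ((TT G c) \ ({yb} ∪ G.neighborFinset y')).card := by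
    have := Finset.le_card_sdiff ({yb} ∪ G.neighborFinset y') (TT G c)
    omega
  obtain ⟨v, hv⟩ := Finset.card_pos.mp this
  simp only [Finset.mem_sdiff, mem_TT, Finset.mem_union, Finset.mem_singleton,
    SimpleGraph.mem_neighborFinset, not_or] at hv
  obtain ⟨tv, hvyb, hvy'⟩ := hv
  have hvy : v ≠ y := by rintro rfl; exact hvy' D.Ny.a3.symm
  obtain ⟨vb, a, b, Nv, cvb, ca, cb⟩ := split1 P.reg tv.2.1
  rw [tv.1] at cvb ca cb
  have cy := D.ty.1
  have vx : ¬ G.Adj x v := by
    intro h
    rcases D.Nx.all v h with e | e | e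
    · exact hvy e
    · have := tv.2.1; rw [e, D.ms] at this; exact absurd this (by simp)
    · have := tv.2.1; rw [e, D.mt] at this; exact absurd this (by simp)
  have vy : ¬ G.Adj v y := by
    intro h
    exact hvyb (uniq_same (P.le1 y) h.symm D.Ny.a1 (by rw [tv.1, cy]) (by rw [D.cyb, cy]))
  have vyb : ¬ G.Adj v yb := by
    intro h
    exact hvy (uniq_same (P.le1 yb) h.symm D.Ny.a1.symm (by rw [tv.1, D.cyb]) (by rw [D.cyb, cy]))
  have hFFe : ∀ u, FF G c x u → u = x ∨ u = y ∨ u = s ∨ u = t ∨ u = yb ∨ u = y' := by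
    intro u hu
    rcases hu with h | h | ⟨q, h1, h2, h3⟩ | ⟨q, h1, h2, h3⟩
    · exact Or.inl h
    · rcases D.Nx.all u h with e | e | e
      · exact Or.inr (Or.inl e)
      · exact Or.inr (Or.inr (Or.inl e))
      · exact Or.inr (Or.inr (Or.inr (Or.inl e)))
    · rcases D.Nx.all q h1 with e | e | e
      · subst e
        have := uniq_same (P.le1 q) h2 D.Ny.a1 h3 (by rw [D.cyb, cy])
        exact Or.inr (Or.inr (Or.inr (Or.inr (Or.inl this))))
      · subst e; exact absurd (md_zero D.ms u h2 h3) (fun h => h)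
      · subst e; exact absurd (md_zero D.mt u h2 h3) (fun h => h)
    · rcases D.Nx.all q h1 with e | e | e
      · subst e
        rcases D.Ny.all u h3 with e | e | e
        · exact Or.inr (Or.inr (Or.inr (Or.inr (Or.inl e))))
        · exact Or.inl e
        · exact Or.inr (Or.inr (Or.inr (Or.inr (Or.inr e))))
      · subst e
        have := h2.2.1; rw [D.ms] at this; exact absurd this (by simp)
      · subst e
        have := h2.2.1; rw [D.mt] at this; exact absurd this (by simp)
  have hd : ∀ u, TF0 G v u → ¬ FF G c x u := by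
    intro u hu hf
    rcases hFFe u hf with e | e | e | e | e | e
    · subst e
      rcases hu with e | e
      · have := tv.1; rw [← e, D.cx] at this; exact absurd this (by simp)
      · exact vx e.symm
    · subst e
      rcases hu with e | e
      · exact hvy e.symm
      · exact vy e
    · subst e
      rcases hu with e | e
      · have := tv.2.1; rw [← e, D.ms] at this; exact absurd this (by simp)
      · exact md_zero D.ms v e.symm (by rw [tv.1, D.cs])
    · subst e
      rcases hu with e | e
      · have := tv.2.1; rw [← e, D.mt] at this; exact absurd this (by simp)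
      · exact md_zero D.mt v e.symm (by rw [tv.1, D.ct])
    · subst e
      rcases hu with e | e
      · exact hvyb e.symm
      · exact vyb e
    · subst e
      rcases hu with e | e
      · have := tv.1; rw [← e, D.cy'] at this; exact absurd this (by simp)
      · exact hvy' e.symm
  have S : St0 G c c (fun _ => False) ∅ 0 := by
    refine ⟨fun u _ => ⟨rfl, rfl⟩, ?_, Bal_empty c, fun u _ => P.le1 u, by simp⟩
    intro u hu; simp at hu
  obtain ⟨c3, X3, S3⟩ := unit0 P.reg hT P.le1 S D Nv tv cvb ca cb (fun u _ h => h)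
    (fun u _ h => h) hd
  apply H.no c3
  apply Bal_univ_of P.reg _ S3.bal S3.le
  rw [S3.im, H.two]; norm_num

/-- claim 2, one half -/
lemma Hy.claim2' {c : V → Bool} (H : Hy G c) {x y z w : V} (cx : c x = true) (mx : md G c x = 0)
    (N : Nb G x y z w) (ty : T0 G c y) (mz : md G c z = 1) (mw : md G c w = 1) : T0 G c z := by
  have P := H.P
  have hT := H.hT
  have cz := nb_false cx mx N.a2
  have cw := nb_false cx mx N.a3
  have cy := ty.1
  by_contra hn
  unfold T0 at hn
  push Not at hn
  obtain ⟨p, hzp, cp, mp⟩ := hn cz mz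
  have hyz : ¬ G.Adj y z := fun h => hT x y z N.a1 h N.a2
  have hyw : ¬ G.Adj y w := fun h => hT x y w N.a1 h N.a3
  have hzw : ¬ G.Adj z w := fun h => hT x z w N.a2 h N.a3
  obtain ⟨o, i, m⟩ := P.opt3 cx mx cy ty.2.1 cz mz N.a1 N.a2 N.ab hyz
  have f3 : flp (flp (flp c y) z) x = flips c [y, z, x] := rfl
  rw [f3] at o i m
  have nd : ([y, z, x] : List V).Nodup := by simp [N.ab, N.a1.ne', N.a2.ne']
  have wn : w ∉ ([y, z, x] : List V) := by simp [N.ad.symm, N.bd.symm, N.a3.ne']
  have hpx : p ≠ x := by rintro rfl; exact mp mx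
  have pn : p ∉ ([y, z, x] : List V) := by
    simp only [List.mem_cons, List.not_mem_nil, or_false, not_or]
    refine ⟨?_, ?_, hpx⟩
    · rintro rfl; rw [cy] at cp; exact absurd cp (by simp)
    · rintro rfl; rw [cz] at cp; exact absurd cp (by simp)
  have hw := md_flips P.reg c nd w
  rw [if_neg wn] at hw
  simp only [List.map_cons, List.map_nil, List.sum_cons, List.sum_nil] at hw
  rw [dl_far hyw, dl_far hzw, dl_diff N.a3 (by rw [cw, cx]; simp), mw] at hw
  have hp := md_flips P.reg c nd p
  rw [if_neg pn] at hp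
  simp only [List.map_cons, List.map_nil, List.sum_cons, List.sum_nil] at hp
  have mp1 : md G c p = 1 := by have := P.le1 p; omega
  rw [dl_far (fun h => mp (ty.2.2 p h cp)), dl_diff hzp (by rw [cp, cz]; simp),
    dl_far (fun h => md_zero mx p h (by rw [cp, cx])), mp1] at hp
  exact both2 P.reg o (by rw [i, H.two]; norm_num) (w := w) (p := p)
    (by rw [flips_notMem wn, cw]) (by omega) (by rw [flips_notMem pn, cp]) (by omega)

lemma Hy.claim2 {c : V → Bool} (H : Hy G c) {x y z w : V} (cx : c x = true) (mx : md G c x = 0)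
    (N : Nb G x y z w) (ty : T0 G c y) (mz : md G c z = 1) (mw : md G c w = 1) : S3 G c x y z w :=
  ⟨N, cx, mx, ty, H.claim2' cx mx N ty mz mw, H.claim2' cx mx N.swp ty mw mz⟩

/-- trichotomy at a vertex of `AA` -/
lemma Hy.dich {c : V → Bool} (H : Hy G c) {x y : V} (cx : c x = true) (mx : md G c x = 0)
    (hy : G.Adj x y) (ty : T0 G c y) :
    (∃ z w, S3 G c x y z w) ∨
    (∃ yb y' z zb p pb t, D1 G c x y yb y' z zb p pb t) := by
  have P := H.P
  obtain ⟨s, t, Nx, _, cs, ct⟩ := split0' P.reg mx hy
  rw [cx] at cs ct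
  obtain ⟨yb, y', Ny, cyb, cy'⟩ := split1' P.reg ty.2.1 hy.symm (by rw [cx, ty.1]; simp)
  rw [ty.1] at cyb cy'
  have key : ∀ z t, Nb G x y z t → c z = false → c t = false → md G c z = 1 → md G c t = 0 →
      ∃ yb y' z zb p pb t, D1 G c x y yb y' z zb p pb t := by
    intro z t Nx cz ct mz mt
    have hnz : ¬ T0 G c z := fun h => P.rule00 H.hT H.hQ cx mx ty h Nx.ab Nx mt
    unfold T0 at hnz
    push Not at hnz
    obtain ⟨p, h1, h2, h3⟩ := hnz cz mz
    have mp : md G c p = 1 := by have := P.le1 p; omega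
    obtain ⟨zb, b, Nz, czb, cb⟩ := split1' P.reg mz Nx.a2.symm (by rw [cx, cz]; simp)
    obtain ⟨pb, apb, cpb, _⟩ := md_one mp
    have hb : b = p := by
      rcases Nz.all p h1 with h | h | h
      · rw [h, czb, cz] at h2; exact absurd h2 (by simp)
      · rw [h, mx] at mp; exact absurd mp (by simp)
      · exact h.symm
    subst hb
    exact ⟨yb, y', z, zb, b, pb, t, ⟨Nx, Ny, Nz, cx, mx, ty, cyb, cy', cz, mz, by rw [czb, cz],
      h2, mp, apb, by rw [cpb, h2], ct, mt⟩⟩
  have m1 := P.le1 s
  have m2 := P.le1 t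
  rcases Nat.lt_or_ge (md G c s) 1 with h | h
  · rcases Nat.lt_or_ge (md G c t) 1 with h' | h'
    · exact absurd (H.noD0 ⟨Nx, Ny, cx, mx, ty, cyb, cy', cs, ct, by omega, by omega⟩) (fun h => h)
    · right
      exact key t s Nx.swp ct cs (by omega) (by omega)
  · rcases Nat.lt_or_ge (md G c t) 1 with h' | h'
    · right
      exact key s t Nx cs ct (by omega) (by omega)
    · left
      exact ⟨s, t, H.claim2 cx mx Nx ty (by omega) (by omega)⟩

/-- star 1, core: exchange using `y` when the `true` neighbour `b` of `wb` is not adjacent to `y` -/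
lemma Hy.star1' {c : V → Bool} (H : Hy G c) {x y z w wb b p pb : V} (S : S3 G c x y z w)
    (Nwb : Nb G wb w b p) (cwb : c wb = false) (cb : c b = true) (mb : md G c b = 0)
    (cp : c p = true) (mp : md G c p = 1) (app : G.Adj p pb) (cpb : c pb = true)
    (hyb : ¬ G.Adj y b) : False := by
  have P := H.P
  have hT := H.hT
  have hG := P.reg
  have cx := S.cx
  have cy := S.ty.1
  have cz := S.tz.1
  have cw := S.tw.1
  have my := S.ty.2.1
  have mz := S.tz.2.1
  have mw := S.tw.2.1
  have mx := S.mx
  have hxy := S.N.a1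
  have hxz := S.N.a2
  have hxw := S.N.a3
  have mpb : md G c pb = 1 := by
    have h1 := P.le1 pb
    have h2 := one_le_md (c := c) app.symm (by rw [cp, cpb])
    omega
  have mwb : md G c wb = 1 := by
    rw [Nwb.md_eq c, cwb, cw, cb, cp]; simp
  have ne_col : ∀ u v, c u = true → c v = false → u ≠ v := by
    rintro u v h1 h2 rfl; rw [h1] at h2; exact absurd h2 (by simp)
  obtain ⟨zb, azb, czb, uzb⟩ := md_one mz
  rw [cz] at czb
  have mzb : md G c zb = 1 := by
    have h1 := P.le1 zb
    have h2 := one_le_md (c := c) azb.symm (by rw [cz, czb])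
    omega
  -- non-adjacencies
  have ywb : ¬ G.Adj y wb := by
    intro h
    have : y = w := uniq_same (P.le1 wb) h.symm Nwb.a1 (by rw [cy, cwb]) (by rw [cw, cwb])
    exact S.N.ad this
  have zwb : ¬ G.Adj z wb := by
    intro h
    have : z = w := uniq_same (P.le1 wb) h.symm Nwb.a1 (by rw [cz, cwb]) (by rw [cw, cwb])
    exact S.N.bd this
  have xwb : ¬ G.Adj x wb := fun h => hT x w wb hxw Nwb.a1.symm h
  have yz : ¬ G.Adj y z := fun h => hT x y z hxy h hxz
  have yw : ¬ G.Adj y w := fun h => hT x y w hxy h hxw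
  have zw : ¬ G.Adj z w := fun h => hT x z w hxz h hxw
  have y_ne_wb : y ≠ wb := by rintro rfl; exact yw Nwb.a1
  have z_ne_wb : z ≠ wb := by rintro rfl; exact zw Nwb.a1
  have zb_ne_y : zb ≠ y := by rintro rfl; exact yz azb.symm
  have zb_ne_wb : zb ≠ wb := by rintro rfl; exact zwb azb
  have zb_ne_w : zb ≠ w := by rintro rfl; exact zw azb
  have pz : ∀ v, T0 G c v → ¬ G.Adj v p := fun v tv h => by
    have := tv.2.2 p h cp; omega
  have nd : ([y, wb, x] : List V).Nodup := by
    simp [y_ne_wb, hxy.ne', (ne_col x wb cx cwb).symm]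
  have key := fun u => md_flips hG c nd u
  simp only [List.map_cons, List.map_nil, List.sum_cons, List.sum_nil] at key
  -- values
  have vy : md G (flips c [y, wb, x]) y ≤ 1 := by
    have h := key y
    rw [if_pos (by simp), dl_self, dl_far (fun e => ywb e.symm), dl_diff hxy (by rw [cx, cy]; simp), my] at h
    omega
  have vwb : md G (flips c [y, wb, x]) wb ≤ 2 := by
    have h := key wb
    rw [if_pos (by simp), dl_far ywb, dl_self, dl_far xwb, mwb] at h
    omega
  have vx : md G (flips c [y, wb, x]) x ≤ 2 := by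
    have h := key x
    rw [if_pos (by simp), dl_self, dl_far (fun e => xwb e.symm), dl_diff hxy.symm (by rw [cx, cy]; simp), mx] at h
    omega
  have wn : w ∉ ([y, wb, x] : List V) := by simp [S.N.ad.symm, Nwb.a1.ne', (ne_col x w cx cw).symm]
  have zn : z ∉ ([y, wb, x] : List V) := by simp [S.N.ab.symm, z_ne_wb, (ne_col x z cx cz).symm]
  have zbn : zb ∉ ([y, wb, x] : List V) := by simp [zb_ne_y, zb_ne_wb, (ne_col x zb cx czb).symm]
  have b_ne_x : b ≠ x := by rintro rfl; exact hyb hxy.symm
  have bn : b ∉ ([y, wb, x] : List V) := by simp [ne_col b y cb cy, ne_col b wb cb cwb, b_ne_x]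
  have p_ne_x : p ≠ x := by rintro rfl; omega
  have pb_ne_x : pb ≠ x := by rintro rfl; omega
  have pn : p ∉ ([y, wb, x] : List V) := by simp [ne_col p y cp cy, ne_col p wb cp cwb, p_ne_x]
  have pbn : pb ∉ ([y, wb, x] : List V) := by simp [ne_col pb y cpb cy, ne_col pb wb cpb cwb, pb_ne_x]
  have vw : md G (flips c [y, wb, x]) w ≤ 1 := by
    have h := key w
    rw [if_neg wn, dl_far yw, dl_same Nwb.a1 (by rw [cw, cwb]), dl_diff hxw (by rw [cx, cw]; simp), mw] at h
    omega
  have vz : md G (flips c [y, wb, x]) z ≤ 2 := by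
    have h := key z
    rw [if_neg zn, dl_far yz, dl_far (fun e => zwb e.symm), dl_diff hxz (by rw [cx, cz]; simp), mz] at h
    omega
  have xb : ¬ G.Adj x b := fun h => md_zero mx b h (by rw [cb, cx])
  have xp : ¬ G.Adj x p := fun h => md_zero mx p h (by rw [cp, cx])
  have xpb : ¬ G.Adj x pb := fun h => md_zero mx pb h (by rw [cpb, cx])
  have vb : md G (flips c [y, wb, x]) b ≤ 1 := by
    have h := key b
    rw [if_neg bn, dl_far hyb, dl_diff Nwb.a2 (by rw [cb, cwb]; simp), dl_far xb, mb] at h
    omega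
  have vp : md G (flips c [y, wb, x]) p ≤ 2 := by
    have h := key p
    rw [if_neg pn, dl_far (pz y S.ty), dl_diff Nwb.a3 (by rw [cp, cwb]; simp), dl_far xp, mp] at h
    omega
  have dneg : ∀ v u, c v = c u → dl G c v u ≤ 0 := by
    intro v u h
    by_cases a : G.Adj v u
    · rw [dl_same a h.symm]; norm_num
    · rw [dl_far a]
  have i1 := imb_flp_false (c := c) cy
  have i2 := imb_flp_false (c := flp c y) (v := wb) (by rw [flp_ne _ y_ne_wb.symm, cwb])
  have i3 := imb_flp_true (c := flp (flp c y) wb) (v := x) (by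
    rw [flp_ne _ (ne_col x wb cx cwb), flp_ne _ hxy.ne, cx])
  have i : imb (flips c [y, wb, x]) = 0 := by
    show imb (flp (flp (flp c y) wb) x) = 0
    rw [i3, i2, i1, H.two]; norm_num
  have col : ∀ u, u ∉ ([y, wb, x] : List V) → flips c [y, wb, x] u = c u := fun u hu =>
    flips_notMem hu
  have cwb3 : flips c [y, wb, x] wb = true := by rw [flips_mem nd (by simp), cwb]; rfl
  have cx3 : flips c [y, wb, x] x = false := by rw [flips_mem nd (by simp), cx]; rfl
  -- everything else
  have oth : ∀ u, u ≠ x → u ≠ wb → u ≠ z → u ≠ p → md G (flips c [y, wb, x]) u ≤ 1 := by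
    intro u ux uwb uz up
    by_cases uy : u = y
    · rw [uy]; exact vy
    by_cases uw : u = w
    · rw [uw]; exact vw
    by_cases ub : u = b
    · rw [ub]; exact vb
    have h := key u
    rw [if_neg (by simp [uy, uwb, ux])] at h
    have mu := P.le1 u
    cases cu : c u
    · have e1 := dneg y u (by rw [cy, cu])
      have e2 := dneg wb u (by rw [cwb, cu])
      have e3 : dl G c x u = 0 := by
        apply dl_far
        intro a
        rcases S.N.all u a with e | e | e
        · exact uy e
        · exact uz e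
        · exact uw e
      omega
    · have e3 := dneg x u (by rw [cx, cu])
      have e2 : dl G c wb u = 0 := by
        apply dl_far
        intro a
        rcases Nwb.all u a with e | e | e
        · exact uw e
        · exact ub e
        · exact up e
      by_cases a : G.Adj y u
      · rw [dl_diff a (by rw [cy, cu]; simp), S.ty.2.2 u a cu] at h
        omega
      · rw [dl_far a] at h
        omega
  have vzb : md G (flips c [y, wb, x]) zb ≤ 1 :=
    oth zb (ne_col x zb cx czb).symm zb_ne_wb azb.ne' (ne_col p zb cp czb).symm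
  have vpb : md G (flips c [y, wb, x]) pb ≤ 1 :=
    oth pb pb_ne_x (ne_col pb wb cpb cwb) (ne_col pb z cpb cz) app.ne'
  have B := Bal_P4 (G := G) (c := flips c [y, wb, x]) (a := b) (b := wb) (d := p) (e := pb)
    (a' := zb) (b' := z) (d' := x) (e' := w)
    ⟨Nwb.a2.symm, Nwb.a3, app, Nwb.bd, by rintro rfl; omega, (ne_col pb wb cpb cwb).symm,
      by rw [col b bn, cb], cwb3, by rw [col p pn, cp], by rw [col pb pbn, cpb], vb, vwb, vp, vpb⟩
    ⟨azb.symm, hxz.symm, hxw, (ne_col x zb cx czb).symm, zb_ne_w, S.N.bd,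
      by rw [col zb zbn, czb], by rw [col z zn, cz], cx3, by rw [col w wn, cw], vzb, vz, vx, vw⟩
  apply H.no (flips c [y, wb, x])
  apply Bal_univ_of hG i B
  intro u hu
  simp only [Finset.mem_insert, Finset.mem_singleton, not_or] at hu
  exact oth u hu.2.2.2.2.2.2.1 hu.2.1 hu.2.2.2.2.2.1 hu.2.2.1

/-- star 1: the partner of `w` has no two `true` neighbours of same-colour degrees `0` and `1` -/
lemma Hy.star1 {c : V → Bool} (H : Hy G c) {x y z w wb b p : V} (S : S3 G c x y z w)
    (Nwb : Nb G wb w b p) (cwb : c wb = false) (cb : c b = true) (mb : md G c b = 0)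
    (cp : c p = true) (mp : md G c p = 1) : False := by
  obtain ⟨pb, app, cpb, _⟩ := md_one mp
  rw [cp] at cpb
  by_cases h1 : G.Adj y b
  · by_cases h2 : G.Adj z b
    · have hne : x ≠ b := by
        rintro rfl
        exact H.hT x w wb S.N.a3 Nwb.a1.symm Nwb.a2.symm
      exact H.hQ x y b z hne S.N.ab S.N.a1 h1 h2.symm S.N.a2.symm
    · exact H.star1' S.rot.swp Nwb cwb cb mb cp mp app cpb h2
  · exact H.star1' S Nwb cwb cb mb cp mp app cpb h1

end Pool.Agent.Helper6_ando
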